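import Pool.Agent.V5helper13.ML.Defs

/-!
# The Mellin transform of a weighted partial sum
-/

set_option autoImplicit false

open MeasureTheory Set Complex Filter Topology

namespace Pool.Agent.V5helper13.ML

/-- weighted partial sums -/
noncomputable def Rs (b : ℕ → ℂ) (g : ℝ → ℂ) (X : ℝ) : ℂ :=
  ∑ n ∈ Finset.range (⌊X⌋₊ + 1), b n * g ((n : ℝ) / X)

theorem measurable_Rs (b : ℕ → ℂ) {g : ℝ → ℂ} (hg : Measurable g) : Measurable (Rs b g) := by
  have h1 : Measurable (fun q : ℕ × ℝ => ∑ n ∈ Finset.range (q.1 + 1), b n * g ((n : ℝ) / q.2)) := by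
    refine measurable_from_prod_countable_right fun n => ?_
    show Measurable fun x : ℝ => ∑ i ∈ Finset.range (n + 1), b i * g ((i : ℝ) / x)
    refine Finset.measurable_sum _ fun i _ => ?_
    exact (hg.comp (measurable_const.div measurable_id)).const_mul _
  exact h1.comp (Nat.measurable_floor.prodMk measurable_id)

theorem Rs_eq_tsum (b : ℕ → ℂ) (g : ℝ → ℂ) {X : ℝ} (hX : 0 < X) :
    Rs b g X = ∑' n : ℕ, if (n : ℝ) ≤ X then b n * g ((n : ℝ) / X) else 0 := by
  unfold Rs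
  rw [tsum_eq_sum (s := Finset.range (⌊X⌋₊ + 1))]
  · refine Finset.sum_congr rfl fun n hn => ?_
    have h1 : n ≤ ⌊X⌋₊ := by have := Finset.mem_range.1 hn; omega
    rw [if_pos ((Nat.le_floor_iff hX.le).1 h1)]
  · intro n hn
    rw [if_neg]
    intro h
    apply hn
    rw [Finset.mem_range]
    have := (Nat.le_floor_iff hX.le).2 h
    omega

section

variable {b : ℕ → ℂ} {m : ℕ} {c : ℕ → ℂ} {w : ℂ}

/-- the summand -/
noncomputable def Fs (b : ℕ → ℂ) (m : ℕ) (c : ℕ → ℂ) (w : ℂ) (n : ℕ) (X : ℝ) : ℂ :=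
  (Ioi (n : ℝ)).indicator (fun X : ℝ => ∑ j ∈ Finset.range (m + 1),
    (b n * c j * (n : ℂ) ^ j) * (X : ℂ) ^ (-w - j - 1)) X

theorem Fs_integrable (hw : 0 < w.re) {n : ℕ} (hn : 1 ≤ n) : Integrable (Fs b m c w n) := by
  have hn0 : (0 : ℝ) < n := by exact_mod_cast hn
  unfold Fs
  rw [integrable_indicator_iff measurableSet_Ioi]
  refine integrable_finsetSum _ fun j _ => ?_
  refine Integrable.const_mul ?_ _
  refine integrableOn_Ioi_cpow_of_lt ?_ hn0
  simp
  have : (0 : ℝ) ≤ j := Nat.cast_nonneg j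
  linarith

theorem Fs_integral (hw : 0 < w.re) {n : ℕ} (hn : 1 ≤ n) :
    ∫ X, Fs b m c w n X = b n * (n : ℂ) ^ (-w) * ∑ j ∈ Finset.range (m + 1), c j / (w + j) := by
  have hn0 : (0 : ℝ) < n := by exact_mod_cast hn
  have hnC : (n : ℂ) ≠ 0 := by exact_mod_cast hn0.ne'
  unfold Fs
  have hre : ∀ j : ℕ, (-w - j - 1 : ℂ).re < -1 := by
    intro j
    simp
    have : (0 : ℝ) ≤ j := Nat.cast_nonneg j
    linarith
  rw [integral_indicator measurableSet_Ioi, integral_finsetSum]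
  · rw [Finset.mul_sum]
    refine Finset.sum_congr rfl fun j _ => ?_
    rw [integral_const_mul, integral_Ioi_cpow_of_lt (hre j) hn0]
    have h1 : (w + j : ℂ) ≠ 0 := by
      intro h
      have h2 := congrArg Complex.re h
      simp at h2
      have : (0 : ℝ) ≤ j := Nat.cast_nonneg j
      linarith
    have h2 : (-w - j - 1 + 1 : ℂ) = -(w + j) := by ring
    rw [h2]
    have h3 : ((n : ℝ) : ℂ) ^ (-(w + j)) = (n : ℂ) ^ (-w) * ((n : ℂ) ^ j)⁻¹ := by
      rw [Complex.ofReal_natCast, neg_add, Complex.cpow_add _ _ hnC, Complex.cpow_neg _ (j : ℂ),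
        Complex.cpow_natCast]
    rw [h3]
    have h4 : (n : ℂ) ^ j ≠ 0 := pow_ne_zero _ hnC
    field_simp
  · intro j _
    exact (integrableOn_Ioi_cpow_of_lt (hre j) hn0).const_mul _

theorem Fs_norm {n : ℕ} (hn : 1 ≤ n) (X : ℝ) :
    ‖Fs b m c w n X‖ ≤ (Ioi (n : ℝ)).indicator (fun X : ℝ =>
      (‖b n‖ * ∑ j ∈ Finset.range (m + 1), ‖c j‖) * X ^ (-w.re - 1)) X := by
  have hn0 : (0 : ℝ) < n := by exact_mod_cast hn
  unfold Fs
  by_cases hX : X ∈ Ioi (n : ℝ)
  · rw [indicator_of_mem hX, indicator_of_mem hX]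
    have hX0 : 0 < X := hn0.trans hX
    refine (norm_sum_le _ _).trans ?_
    rw [Finset.mul_sum, Finset.sum_mul]
    refine Finset.sum_le_sum fun j _ => ?_
    rw [norm_mul, norm_mul, norm_mul, norm_pow, Complex.norm_natCast,
      Complex.norm_cpow_eq_rpow_re_of_pos hX0]
    have h1 : (-w - j - 1 : ℂ).re = (-w.re - 1) - j := by simp; ring
    rw [h1, Real.rpow_sub hX0, Real.rpow_natCast]
    have h2 : (n : ℝ) ^ j * (X ^ (-w.re - 1) / X ^ j) ≤ X ^ (-w.re - 1) := by
      rw [mul_div_assoc', div_le_iff₀ (by positivity), mul_comm]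
      have : (n : ℝ) ^ j ≤ X ^ j := pow_le_pow_left₀ hn0.le (le_of_lt hX) j
      gcongr
    calc ‖b n‖ * ‖c j‖ * (n : ℝ) ^ j * (X ^ (-w.re - 1) / X ^ j)
        = ‖b n‖ * ‖c j‖ * ((n : ℝ) ^ j * (X ^ (-w.re - 1) / X ^ j)) := by ring
      _ ≤ ‖b n‖ * ‖c j‖ * X ^ (-w.re - 1) := by gcongr
  · rw [indicator_of_notMem hX, indicator_of_notMem hX, norm_zero]

theorem Fs_norm_integral (hw : 0 < w.re) {n : ℕ} (hn : 1 ≤ n) :
    ∫ X, ‖Fs b m c w n X‖ ≤ ‖b n‖ * (n : ℝ) ^ (-w.re) * ((∑ j ∈ Finset.range (m + 1), ‖c j‖) / w.re) := by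
  have hn0 : (0 : ℝ) < n := by exact_mod_cast hn
  have h0 : IntegrableOn (fun X : ℝ => X ^ (-w.re - 1)) (Ioi (n : ℝ)) :=
    integrableOn_Ioi_rpow_of_lt (by linarith) hn0
  have h1 : Integrable ((Ioi (n : ℝ)).indicator (fun X : ℝ =>
      (‖b n‖ * ∑ j ∈ Finset.range (m + 1), ‖c j‖) * X ^ (-w.re - 1))) := by
    rw [integrable_indicator_iff measurableSet_Ioi]
    exact h0.const_mul _
  calc ∫ X, ‖Fs b m c w n X‖ ≤ ∫ X, (Ioi (n : ℝ)).indicator (fun X : ℝ =>
      (‖b n‖ * ∑ j ∈ Finset.range (m + 1), ‖c j‖) * X ^ (-w.re - 1)) X :=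
        integral_mono_of_nonneg (Eventually.of_forall fun _ => norm_nonneg _) h1
          (Eventually.of_forall fun X => Fs_norm hn X)
    _ = _ := by
        rw [integral_indicator measurableSet_Ioi, integral_const_mul,
          integral_Ioi_rpow_of_lt (by linarith) hn0]
        have h2 : -w.re - 1 + 1 = -w.re := by ring
        rw [h2]
        field_simp

end

/-- **The Mellin transform of weighted partial sums.** -/
theorem mellin_Rs {b : ℕ → ℂ} (hb0 : b 0 = 0) {m : ℕ} {c : ℕ → ℂ} {g : ℝ → ℂ}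
    (hg : ∀ x : ℝ, g x = ∑ j ∈ Finset.range (m + 1), c j * (x : ℂ) ^ j) {w : ℂ} (hw : 0 < w.re)
    (hs : Summable (fun n : ℕ => ‖b n‖ * (n : ℝ) ^ (-w.re))) :
    MellinConvergent (Rs b g) (-w) ∧
      mellin (Rs b g) (-w) = (∑' n : ℕ, b n * (n : ℂ) ^ (-w)) *
        ∑ j ∈ Finset.range (m + 1), c j / (w + j) := by
  have hgm : Measurable g := by
    have : g = fun x : ℝ => ∑ j ∈ Finset.range (m + 1), c j * (x : ℂ) ^ j := funext hg
    rw [this]
    exact (by fun_prop : Continuous fun x : ℝ => ∑ j ∈ Finset.range (m + 1), c j * (x : ℂ) ^ j).measurable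
  have hF0 : ∀ X, Fs b m c w 0 X = 0 := by
    intro X
    unfold Fs
    simp [hb0]
  have hint : ∀ n, Integrable (Fs b m c w n) := by
    intro n
    rcases Nat.eq_zero_or_pos n with h | h
    · subst h
      have : Fs b m c w 0 = fun _ => 0 := funext hF0
      rw [this]
      exact integrable_zero _ _ _
    · exact Fs_integrable hw h
  have hsum : Summable (fun n => ∫ X, ‖Fs b m c w n X‖) := by
    refine (hs.mul_right ((∑ j ∈ Finset.range (m + 1), ‖c j‖) / w.re)).of_nonneg_of_le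
      (fun n => integral_nonneg fun _ => norm_nonneg _) (fun n => ?_)
    rcases Nat.eq_zero_or_pos n with h | h
    · subst h
      simp [hF0, hb0]
    · exact Fs_norm_integral hw h
  have hval : ∀ n, ∫ X, Fs b m c w n X = b n * (n : ℂ) ^ (-w) *
      ∑ j ∈ Finset.range (m + 1), c j / (w + j) := by
    intro n
    rcases Nat.eq_zero_or_pos n with h | h
    · subst h
      simp [hF0, hb0]
    · exact Fs_integral hw h
  -- pointwise
  have hpt : ∀ X : ℝ, 0 < X → (∀ n : ℕ, (n : ℝ) ≠ X) →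
      (X : ℂ) ^ (-w - 1) • Rs b g X = ∑' n, Fs b m c w n X := by
    intro X hX hne
    rw [Rs_eq_tsum b g hX, smul_eq_mul, ← tsum_mul_left]
    refine tsum_congr fun n => ?_
    unfold Fs
    by_cases h : (n : ℝ) ≤ X
    · have h' : X ∈ Ioi (n : ℝ) := lt_of_le_of_ne h (hne n)
      rw [if_pos h, indicator_of_mem h', hg, Finset.mul_sum, Finset.mul_sum]
      refine Finset.sum_congr rfl fun j _ => ?_
      have hXC : (X : ℂ) ≠ 0 := by exact_mod_cast hX.ne'
      have h1 : (X : ℂ) ^ (-w - j - 1) = (X : ℂ) ^ (-w - 1) * ((X : ℂ) ^ j)⁻¹ := by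
        have : (-w - j - 1 : ℂ) = (-w - 1) + (-(j : ℂ)) := by ring
        rw [this, Complex.cpow_add _ _ hXC, Complex.cpow_neg, Complex.cpow_natCast]
      rw [h1]
      push_cast
      rw [div_pow]
      ring
    · rw [if_neg h, indicator_of_notMem (by simpa using le_of_not_ge h), mul_zero]
  have hae : (fun X : ℝ => (X : ℂ) ^ (-w - 1) • Rs b g X) =ᵐ[volume.restrict (Ioi 0)]
      fun X => ∑' n, Fs b m c w n X := by
    have h1 : (range (fun n : ℕ => (n : ℝ)))ᶜ ∈ ae (volume.restrict (Ioi (0 : ℝ))) := by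
      refine mem_ae_iff.2 ?_
      rw [compl_compl]
      exact (countable_range _).measure_zero _
    have h2 : ∀ᵐ X ∂(volume.restrict (Ioi (0 : ℝ))), X ∈ Ioi (0 : ℝ) :=
      ae_restrict_mem measurableSet_Ioi
    filter_upwards [h1, h2] with X hX hX0
    exact hpt X hX0 fun n hn => hX ⟨n, hn⟩
  have hHS := hasSum_integral_of_summable_integral_norm hint hsum
  -- integrability of the sum
  have hmeas : AEStronglyMeasurable (fun X : ℝ => (X : ℂ) ^ (-w - 1) • Rs b g X)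
      (volume.restrict (Ioi 0)) := by
    have h1 : Measurable (fun X : ℝ => (X : ℂ) ^ (-w - 1)) := by fun_prop
    have h2 : Measurable (fun X : ℝ => (X : ℂ) ^ (-w - 1) * Rs b g X) := h1.mul (measurable_Rs b hgm)
    exact h2.aestronglyMeasurable
  have hconv : IntegrableOn (fun X : ℝ => (X : ℂ) ^ (-w - 1) • Rs b g X) (Ioi 0) := by
    refine ⟨hmeas, ?_⟩
    have e1 : ∀ᵐ X : ℝ ∂(volume.restrict (Ioi (0 : ℝ))), ‖(X : ℂ) ^ (-w - 1) • Rs b g X‖ₑ ≤
        ∑' n, ‖Fs b m c w n X‖ₑ := by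
      filter_upwards [hae] with X hX
      rw [hX]
      exact enorm_tsum_le_tsum_enorm
    refine lt_of_le_of_lt (lintegral_mono_ae e1) ?_
    rw [lintegral_tsum (fun n => (hint n).1.enorm.restrict)]
    have e2 : ∀ n, ∫⁻ X in Ioi (0 : ℝ), ‖Fs b m c w n X‖ₑ ≤ ENNReal.ofReal (∫ X, ‖Fs b m c w n X‖) := by
      intro n
      rw [ofReal_integral_norm_eq_lintegral_enorm (hint n)]
      exact setLIntegral_le_lintegral _ _
    refine lt_of_le_of_lt (ENNReal.tsum_le_tsum e2) ?_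
    rw [← ENNReal.ofReal_tsum_of_nonneg (fun n => integral_nonneg fun _ => norm_nonneg _) hsum]
    exact ENNReal.ofReal_lt_top
  refine ⟨hconv, ?_⟩
  unfold mellin
  rw [integral_congr_ae hae]
  have h3 : ∫ X in Ioi (0 : ℝ), ∑' n, Fs b m c w n X = ∫ X, ∑' n, Fs b m c w n X := by
    refine setIntegral_eq_integral_of_forall_compl_eq_zero fun X hX => ?_
    have : ∀ n : ℕ, Fs b m c w n X = 0 := by
      intro n
      unfold Fs
      rw [indicator_of_notMem]
      have : (0 : ℝ) ≤ n := Nat.cast_nonneg n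
      simp only [mem_Ioi, not_lt] at hX ⊢
      exact le_trans hX this
    simp [this]
  rw [h3, ← hHS.tsum_eq]
  simp_rw [hval]
  rw [tsum_mul_right]

end Pool.Agent.V5helper13.ML
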