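import Pool.Agent.V5helper13.ML.Pset

/-!
# From the mean values to the continuation
-/

set_option autoImplicit false

open MeasureTheory Set Complex Filter Topology Metric

namespace Pool.Agent.V5helper13.ML

open Pool.Agent.Q48.MDS Pool.Agent.V5helper62.MD

theorem laplace_diff {φ : ℝ → ℂ} (hφm : Measurable φ) {α : ℝ}
    (hφ : IntegrableOn (fun X : ℝ => ‖φ X‖ * X ^ (-α - 1)) (Ioi 1)) {w : ℂ} (hw : α < w.re) :
    DifferentiableAt ℂ (fun w : ℂ => ∫ X : ℝ in Ioi 1, (X : ℂ) ^ (-w - 1) * φ X) w := by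
  classical
  set U : Set (Fin 1 → ℂ) := {z | α < (z 0).re} with hU
  have hUo : IsOpen U :=
    isOpen_lt continuous_const (Complex.continuous_re.comp (continuous_apply 0))
  set f : (Fin 1 → ℂ) → ℝ → ℂ := fun z X => if 1 < X then (X : ℂ) ^ (-(z 0) - 1) * φ X else 0 with hf
  have hd : DifferentiableOn ℂ (fun z => ∫ X, f z X ∂(volume.restrict (Ioi (1 : ℝ)))) U := by
    refine differentiableOn_integral hUo f ?_ ?_ ?_
    · intro X
      by_cases hX : 1 < X
      · have hX0 : (X : ℂ) ≠ 0 := by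
          have : (0 : ℝ) < X := by linarith
          exact_mod_cast this.ne'
        simp only [hf, if_pos hX]
        have h1 : Differentiable ℂ (fun z : Fin 1 → ℂ => (X : ℂ) ^ (-(z 0) - 1)) :=
          Differentiable.const_cpow ((differentiable_apply (0 : Fin 1)).neg.sub_const 1) (Or.inl hX0)
        exact (h1.mul_const _).differentiableOn
      · simp only [hf, if_neg hX]
        exact differentiableOn_const _
    · intro z _
      have h1 : Measurable (fun X : ℝ => (X : ℂ) ^ (-(z 0) - 1)) := by fun_prop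
      have h2 : Measurable (f z) := Measurable.ite measurableSet_Ioi (h1.mul hφm) measurable_const
      exact h2.aestronglyMeasurable
    · intro z₀ hz₀
      refine ⟨U, hUo.mem_nhds hz₀, fun X => if 1 < X then ‖φ X‖ * X ^ (-α - 1) else 0, ?_,
        fun z hz X => ?_⟩
      · refine hφ.congr ?_
        filter_upwards [ae_restrict_mem measurableSet_Ioi] with X hX
        rw [if_pos (show (1 : ℝ) < X from hX)]
      · by_cases hX : 1 < X
        · simp only [hf, if_pos hX]
          have hX0 : 0 < X := by linarith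
          rw [norm_mul, Complex.norm_cpow_eq_rpow_re_of_pos hX0, mul_comm]
          have h1 : (-(z 0) - 1 : ℂ).re = -(z 0).re - 1 := by simp
          rw [h1]
          have h2 : X ^ (-(z 0).re - 1) ≤ X ^ (-α - 1) :=
            Real.rpow_le_rpow_of_exponent_le hX.le (by have : α < (z 0).re := hz; linarith)
          gcongr
        · simp only [hf, if_neg hX, norm_zero, le_refl]
  have h1 : DifferentiableAt ℂ (fun z => ∫ X, f z X ∂(volume.restrict (Ioi (1 : ℝ))))
      (fun _ : Fin 1 => w) := hd.differentiableAt (hUo.mem_nhds hw)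
  have h2 : DifferentiableAt ℂ (fun w : ℂ => (fun _ : Fin 1 => w)) w := by
    rw [differentiableAt_pi]
    exact fun _ => differentiableAt_id
  have h3 := DifferentiableAt.comp (f := fun w : ℂ => (fun _ : Fin 1 => w)) w h1 h2
  refine h3.congr_of_eventuallyEq (Eventually.of_forall fun w' => ?_)
  simp only [Function.comp_def]
  refine setIntegral_congr_fun measurableSet_Ioi fun X hX => ?_
  simp only [hf]
  rw [if_pos (show (1 : ℝ) < X from hX)]

theorem mom_small {k : ℕ} (L : ℕ → ℂ → ℂ) (M m : ℕ) {X : ℝ} (hX : X ≤ 1) (s : Fin k → ℂ) :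
    mom L M m X s = 0 := by
  unfold mom
  have h1 : ⌊X⌋₊ ≤ 1 := by
    have := Nat.floor_mono hX
    simpa using this
  have h2 : Finset.Icc 2 ⌊X⌋₊ = ∅ := by
    rw [Finset.Icc_eq_empty_iff]; omega
  rw [h2]
  simp

/-- **Mean values give the continuation.** -/
theorem continues_of_mean {k M : ℕ} {p : Fin (k + 1) → ℝ} (hp : 0 < p 0) {m N : ℕ}
    (hm : 2 ^ k ≤ m) {δ : ℝ} (hδ : 0 < δ)
    (hI : IntegrableOn (fun q : ℝ × (Fin k → ℝ) => mom Lf M m q.1 (ln p q.2) *
      ((q.1 ^ (δ - p 0 - 1) / (1 + ‖q.2‖) ^ N : ℝ) : ℂ)) (Ioi 1 ×ˢ univ)) :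
    ContinuesTo k M p := by
  obtain ⟨T, hT0, hTV⟩ := exists_addw_mem_V p
  set δ' := min δ (p 0) / 2 with hδ'
  have hmin0 : 0 < min δ (p 0) := lt_min hδ hp
  have hδ'0 : 0 < δ' := by positivity
  have hδ'δ : δ' < δ := by
    have := min_le_left δ (p 0)
    rw [hδ']; linarith
  have hδ'p : δ' < p 0 := by
    have := min_le_right δ (p 0)
    rw [hδ']; linarith
  have hLc : ∀ d, FundDisc d → 1 < d → Continuous (Lf d) := fun d h1 h2 => (Lf_diff h1 h2).continuous
  have hmeas := measurable_mom hLc M m p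
  -- the product measure
  have hI' : Integrable (fun q : ℝ × (Fin k → ℝ) => mom Lf M m q.1 (ln p q.2) *
      ((q.1 ^ (δ - p 0 - 1) / (1 + ‖q.2‖) ^ N : ℝ) : ℂ))
      ((volume.restrict (Ioi (1 : ℝ))).prod (volume : Measure (Fin k → ℝ))) := by
    have h1 : (volume.restrict (Ioi (1 : ℝ))).prod (volume : Measure (Fin k → ℝ)) =
        (volume : Measure (ℝ × (Fin k → ℝ))).restrict (Ioi 1 ×ˢ univ) := by
      have := Measure.prod_restrict (μ := (volume : Measure ℝ)) (ν := (volume : Measure (Fin k → ℝ)))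
        (Ioi 1) univ
      rw [Measure.restrict_univ] at this
      exact this
    rw [h1]
    exact hI
  have hnorm : ∀ t : Fin k → ℝ, ∀ X ∈ Ioi (1 : ℝ), ‖mom Lf M m X (ln p t) *
      ((X ^ (δ - p 0 - 1) / (1 + ‖t‖) ^ N : ℝ) : ℂ)‖ =
      (‖mom Lf M m X (ln p t)‖ * X ^ (-(p 0 - δ) - 1)) * ((1 + ‖t‖) ^ N)⁻¹ := by
    intro t X hX
    have hX0 : (0 : ℝ) < X := lt_trans one_pos hX
    rw [norm_mul, Complex.norm_real, Real.norm_of_nonneg (by positivity)]
    have : δ - p 0 - 1 = -(p 0 - δ) - 1 := by ring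
    rw [this, div_eq_mul_inv, ← mul_assoc]
  obtain ⟨B, hB0, hB⟩ := invPhi_bound (p 0 - δ') (p 0 + T) m
  set Q₀ : (Fin k → ℝ) → ℝ := fun t =>
    ∫ X in Ioi (1 : ℝ), ‖mom Lf M m X (ln p t)‖ * X ^ (-(p 0 - δ) - 1) with hQ₀
  have hQ₀0 : ∀ t, 0 ≤ Q₀ t := fun t => setIntegral_nonneg measurableSet_Ioi fun X hX => by
    have hX0 : (0 : ℝ) < X := lt_trans one_pos hX
    positivity
  have hQi : Integrable (fun t => (B * Q₀ t) / (1 + ‖t‖) ^ N) := by
    have h1 := hI'.integral_norm_prod_right.const_mul B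
    refine h1.congr (Eventually.of_forall fun t => ?_)
    show B * ∫ X in Ioi (1 : ℝ), ‖mom Lf M m X (ln p t) *
      ((X ^ (δ - p 0 - 1) / (1 + ‖t‖) ^ N : ℝ) : ℂ)‖ = _
    rw [setIntegral_congr_fun measurableSet_Ioi (hnorm t), integral_mul_const]
    simp only [hQ₀]
    ring
  have hsec : ∀ᵐ t : Fin k → ℝ, IntegrableOn (fun X : ℝ => ‖mom Lf M m X (ln p t)‖ *
      X ^ (-(p 0 - δ) - 1)) (Ioi 1) := by
    filter_upwards [hI'.prod_left_ae] with t ht
    have h1 := ht.norm.mul_const ((1 + ‖t‖) ^ N)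
    refine h1.congr ?_
    filter_upwards [ae_restrict_mem measurableSet_Ioi] with X hX
    rw [hnorm t X hX, mul_assoc, inv_mul_cancel₀ (by positivity), mul_one]
  set g : (Fin k → ℝ) → ℂ → ℂ := fun t w =>
    ((∏ i ∈ Finset.range (m + 1), (w + (i : ℂ))) / (m.factorial : ℂ)) *
      ∫ X : ℝ in Ioi 1, (X : ℂ) ^ (-w - 1) * mom Lf M m X (ln p t) with hg
  have hTF : Tempered (V k) (F1 k M) := tempered_F1 (isOpen_V k) (dom_V k M)
  have hgood : ∀ᵐ t : Fin k → ℝ, (∀ w : ℂ, p 0 - δ' ≤ w.re → w.re ≤ p 0 + T →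
      DifferentiableAt ℂ (g t) w ∧ ‖g t w‖ ≤ (B * Q₀ t) * (1 + |w.im|) ^ (m + 1)) ∧
      ∀ y : ℝ, g t (((p 0 + T : ℝ) : ℂ) + I * y) =
        F1 k M (pt (((p 0 + T : ℝ) : ℂ) + I * y) (ln p t)) := by
    filter_upwards [hsec] with t ht
    have hmt : Measurable (fun X : ℝ => mom Lf M m X (ln p t)) := by
      have h1 := hmeas.comp ((measurable_id (α := ℝ)).prodMk (measurable_const (a := t)))
      simp only [Function.comp_def, id] at h1
      exact h1
    refine ⟨fun w hw1 hw2 => ⟨?_, ?_⟩, fun y => ?_⟩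
    · have hd1 : DifferentiableAt ℂ (fun w : ℂ => ∫ X : ℝ in Ioi 1, (X : ℂ) ^ (-w - 1) *
          mom Lf M m X (ln p t)) w := laplace_diff hmt ht (by linarith)
      have hd2 : DifferentiableAt ℂ (fun w : ℂ => (∏ i ∈ Finset.range (m + 1), (w + (i : ℂ))) /
          (m.factorial : ℂ)) w := by fun_prop
      exact hd2.mul hd1
    · have h1 := hB w hw1 hw2
      have h2 : ‖∫ X : ℝ in Ioi 1, (X : ℂ) ^ (-w - 1) * mom Lf M m X (ln p t)‖ ≤ Q₀ t := by
        refine norm_integral_le_of_norm_le ht ?_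
        filter_upwards [ae_restrict_mem measurableSet_Ioi] with X hX
        have hX0 : (0 : ℝ) < X := lt_trans one_pos hX
        rw [norm_mul, Complex.norm_cpow_eq_rpow_re_of_pos hX0, mul_comm]
        have h3 : (-w - 1 : ℂ).re = -w.re - 1 := by simp
        rw [h3]
        have h4 : X ^ (-w.re - 1) ≤ X ^ (-(p 0 - δ) - 1) :=
          Real.rpow_le_rpow_of_exponent_le (le_of_lt hX) (by linarith)
        gcongr
      simp only [hg]
      rw [norm_mul]
      calc _ ≤ (B * (1 + |w.im|) ^ (m + 1)) * Q₀ t := by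
            gcongr
        _ = _ := by ring
    · set w : ℂ := ((p 0 + T : ℝ) : ℂ) + I * y with hw
      have hwre : w.re = p 0 + T := by simp [hw]
      have htube : pt w (ln p t) ∈ tube (V k) := by
        show (fun i => (pt w (ln p t) i).re) ∈ V k
        rw [re_pt_ln, hwre, add_sub_cancel_left]
        exact hTV
      have h1 := (mellin_mom M hm htube).2
      have h2 : mellin (fun X => mom Lf M m X (ln p t)) (-w) =
          ∫ X : ℝ in Ioi 1, (X : ℂ) ^ (-w - 1) * mom Lf M m X (ln p t) := by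
        unfold mellin
        simp only [smul_eq_mul]
        refine setIntegral_eq_of_subset_of_forall_sdiff_eq_zero measurableSet_Ioi
          (Ioi_subset_Ioi zero_le_one) fun X hX => ?_
        rw [mom_small Lf M m (by simpa using hX.2), mul_zero]
      show ((∏ i ∈ Finset.range (m + 1), (w + (i : ℂ))) / (m.factorial : ℂ)) *
        (∫ X : ℝ in Ioi 1, (X : ℂ) ^ (-w - 1) * mom Lf M m X (ln p t)) = _
      rw [← h2, h1]
      unfold Phi
      have h3 : (∏ i ∈ Finset.range (m + 1), (w + (i : ℂ))) ≠ 0 := by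
        rw [Finset.prod_ne_zero_iff]
        intro i _ h
        have h4 := congrArg Complex.re h
        simp only [Complex.add_re, Complex.natCast_re, Complex.zero_re, hwre] at h4
        have : (0 : ℝ) ≤ i := Nat.cast_nonneg i
        linarith
      have h4 : (m.factorial : ℂ) ≠ 0 := by exact_mod_cast m.factorial_ne_zero
      field_simp
  obtain ⟨C, N', hC0, hC⟩ := flat_bound hTF (p := p) (T := T) (δ := δ') hTV (by linarith)
    (fun t => mul_nonneg hB0 (hQ₀0 t)) hQi g hgood
  have hsum : 0 < T + δ' := by linarith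
  have hconn : IsPreconnected (V k) := (convex_V k).isPreconnected
  have hxP : addw T p ∈ Pset (F1 k M) (rl (addw T p)) :=
    subset_Pset (isOpen_V k) hconn hTF (rl_mem hTV) hTV
  have key := mem_Pset_of_flat hxP hC0 hC (a := δ' / (T + δ')) (b := T / (T + δ'))
    (by positivity) (by positivity) (by field_simp; ring)
  have hpeq : (δ' / (T + δ')) • addw T p + (T / (T + δ')) • addw (-δ') p = p := by
    funext i
    simp only [Pi.add_apply, Pi.smul_apply, smul_eq_mul]
    unfold addw
    by_cases h : i = 0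
    · subst h
      simp only [if_true]
      field_simp
      ring
    · simp only [h, if_false]
      field_simp
      ring
  rw [hpeq] at key
  exact continuesTo_of_mem_Pset hTV key

end Pool.Agent.V5helper13.ML
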