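import Pool.Agent.V5helper62.MD.Fold

/-!
# Weighted moments of quadratic L-functions on vertical lines: definitions
-/

set_option autoImplicit false

open MeasureTheory Set Complex

namespace Pool.Agent.V5helper13.ML

open Pool.Agent.Q48.MDS Pool.Agent.V5helper62.MD

/-- `P_s(w) = ∏_J (σ_J(w) - 1)`, as a polynomial in `w` for fixed `s_1, ..., s_k`. -/
noncomputable def Pol {k : ℕ} (s : Fin k → ℂ) (w : ℂ) : ℂ :=
  ∏ J : Finset (Fin k), (w - (J.card : ℂ) / 2 + ∑ j ∈ J, s j - 1)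

/-- The weight `g_{m,s}(x) = ∑_{j ≤ m} (-1)^j (m choose j) P_s(-j) x^j`. -/
noncomputable def wt {k : ℕ} (m : ℕ) (s : Fin k → ℂ) (x : ℝ) : ℂ :=
  ∑ j ∈ Finset.range (m + 1), (-1) ^ j * (m.choose j : ℂ) * Pol s (-(j : ℂ)) * (x : ℂ) ^ j

open Classical in
/-- The weighted moment. -/
noncomputable def mom {k : ℕ} (L : ℕ → ℂ → ℂ) (M m : ℕ) (X : ℝ) (s : Fin k → ℂ) : ℂ :=
  ∑ d ∈ (Finset.Icc 2 ⌊X⌋₊).filter FundDisc,
    (kron d M : ℂ) * wt m s ((d : ℝ) / X) * ∏ j : Fin k, L d (s j)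

/-- The Mellin kernel `m! / (w (w + 1) ... (w + m))`. -/
noncomputable def Phi (m : ℕ) (w : ℂ) : ℂ := (m.factorial : ℂ) / ∏ i ∈ Finset.range (m + 1), (w + i)

/-- the point `a + i t` -/
noncomputable def ln {k : ℕ} (p : Fin (k + 1) → ℝ) (t : Fin k → ℝ) : Fin k → ℂ :=
  fun j => (p j.succ : ℂ) + I * (t j : ℂ)

/-- the point `(w, s)` -/
noncomputable def pt {k : ℕ} (w : ℂ) (s : Fin k → ℂ) : Fin (k + 1) → ℂ := Fin.cons w s

theorem pt_zero {k : ℕ} (w : ℂ) (s : Fin k → ℂ) : pt w s 0 = w := rfl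

theorem pt_succ {k : ℕ} (w : ℂ) (s : Fin k → ℂ) (j : Fin k) : pt w s j.succ = s j := by
  simp [pt]

theorem prod_sigma_pt {k : ℕ} (w : ℂ) (s : Fin k → ℂ) :
    ∏ J : Finset (Fin k), (Pool.Agent.Q48.MDS.sigma J (pt w s) - 1) = Pol s w := by
  unfold Pol Pool.Agent.Q48.MDS.sigma
  refine Finset.prod_congr rfl fun J _ => ?_
  simp only [pt_zero, pt_succ]

end Pool.Agent.V5helper13.ML
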