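import Pool.Agent.V5helper13.ML.Iter

/-!
# Flat tubes: data on a single vertical plane
-/

set_option autoImplicit false

open MeasureTheory Set Complex Filter Topology Metric

namespace Pool.Agent.V5helper13.ML

open Pool.Agent.Q48.MDS Pool.Agent.V5helper62.MD

/-- the entire factor of the kernel -/
noncomputable def kk {k : ℕ} (η ξ : EuclideanSpace ℝ (Fin (k + 1))) (z : Fin (k + 1) → ℂ) : ℂ :=
  cexp (gau η z) * cexp (((-2 * Real.pi : ℝ) : ℂ) * pair z ξ)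

theorem ker_eq_kk {k : ℕ} (F' : (Fin (k + 1) → ℂ) → ℂ) (η ξ : EuclideanSpace ℝ (Fin (k + 1)))
    (z : Fin (k + 1) → ℂ) : Pool.Agent.Q48.MDS.ker F' η ξ z = F' z * kk η ξ z := by
  unfold Pool.Agent.Q48.MDS.ker kk
  rw [mul_assoc]

theorem norm_kk {k : ℕ} (η ξ : EuclideanSpace ℝ (Fin (k + 1))) (z : Fin (k + 1) → ℂ) :
    ‖kk η ξ z‖ = Real.exp (∑ j, (z j).re ^ 2) * Real.exp (-‖imV z - η‖ ^ 2) *
      Real.exp (-2 * Real.pi * ∑ j, (z j).re * ξ j) := by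
  unfold kk
  rw [norm_mul, norm_exp_gau, norm_exp_pair]

theorem kk_diff {k : ℕ} (η ξ : EuclideanSpace ℝ (Fin (k + 1))) : Differentiable ℂ (kk η ξ) := by
  unfold kk
  exact (differentiable_gau η).cexp.mul ((differentiable_pair ξ).const_mul _).cexp

theorem imV_sub_sq {k : ℕ} (η : EuclideanSpace ℝ (Fin (k + 1))) (p : Fin (k + 1) → ℝ)
    (t : Fin k → ℝ) (w : ℂ) :
    ‖imV (pt w (ln p t)) - η‖ ^ 2 = (w.im - η 0) ^ 2 + ∑ j : Fin k, (t j - η j.succ) ^ 2 := by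
  rw [EuclideanSpace.norm_sq_eq, Fin.sum_univ_succ]
  congr 1
  · simp [imV, pt_zero]
  · refine Finset.sum_congr rfl fun j _ => ?_
    simp [imV, pt_succ, ln]

theorem sup_sq_le {k : ℕ} (v : Fin k → ℝ) : ‖v‖ ^ 2 ≤ ∑ j, v j ^ 2 := by
  have h0 : 0 ≤ ∑ j, v j ^ 2 := Finset.sum_nonneg fun j _ => sq_nonneg _
  have h1 : ‖v‖ ≤ Real.sqrt (∑ j, v j ^ 2) := by
    rw [pi_norm_le_iff_of_nonneg (Real.sqrt_nonneg _)]
    intro j
    rw [Real.norm_eq_abs, ← Real.sqrt_sq_eq_abs]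
    exact Real.sqrt_le_sqrt (Finset.single_le_sum (f := fun j => v j ^ 2)
      (fun i _ => sq_nonneg _) (Finset.mem_univ j))
  calc ‖v‖ ^ 2 ≤ Real.sqrt (∑ j, v j ^ 2) ^ 2 := by gcongr
    _ = _ := Real.sq_sqrt h0

/-- the kernel on a plane -/
theorem norm_kk_pt {k : ℕ} (η ξ : EuclideanSpace ℝ (Fin (k + 1))) (p : Fin (k + 1) → ℝ)
    (t : Fin k → ℝ) (w : ℂ) :
    ‖kk η ξ (pt w (ln p t))‖ = (Real.exp (∑ j, (addw (w.re - p 0) p j) ^ 2) *
      Real.exp (-2 * Real.pi * ∑ j, addw (w.re - p 0) p j * ξ j)) *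
      (Real.exp (-(w.im - η 0) ^ 2) * Real.exp (-∑ j : Fin k, (t j - η j.succ) ^ 2)) := by
  rw [norm_kk, imV_sub_sq]
  have h1 : ∀ j, (pt w (ln p t) j).re = addw (w.re - p 0) p j := fun j =>
    congrFun (re_pt_ln p t w) j
  simp only [h1]
  rw [neg_add, Real.exp_add]
  ring

/-- **Flat tube bound.** -/
theorem flat_bound {k : ℕ} {Ω : Set (Fin (k + 1) → ℝ)} {F' : (Fin (k + 1) → ℂ) → ℂ}
    (hF : Tempered Ω F') {p : Fin (k + 1) → ℝ} {T δ : ℝ} (hT : addw T p ∈ Ω) (hδT : -δ ≤ T)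
    {N n : ℕ} {Q : (Fin k → ℝ) → ℝ} (hQ0 : ∀ t, 0 ≤ Q t)
    (hQi : Integrable (fun t => Q t / (1 + ‖t‖) ^ N)) (g : (Fin k → ℝ) → ℂ → ℂ)
    (hg : ∀ᵐ t : Fin k → ℝ, (∀ w : ℂ, p 0 - δ ≤ w.re → w.re ≤ p 0 + T →
      DifferentiableAt ℂ (g t) w ∧ ‖g t w‖ ≤ Q t * (1 + |w.im|) ^ n) ∧
      ∀ y : ℝ, g t (((p 0 + T : ℝ) : ℂ) + I * y) = F' (pt (((p 0 + T : ℝ) : ℂ) + I * y) (ln p t))) :
    ∃ (C : ℝ) (N' : ℕ), 0 ≤ C ∧ ∀ η ξ : EuclideanSpace ℝ (Fin (k + 1)),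
      ‖hat F' η ξ (rl (addw T p))‖ * Real.exp (2 * Real.pi * ∑ j, addw (-δ) p j * ξ j) ≤
        C * (1 + ‖η‖) ^ N' := by
  obtain ⟨C₁, hC₁0, hC₁⟩ := pow_mul_gauss_le N (c := 1) one_pos
  obtain ⟨C₂, hC₂0, hC₂⟩ := pow_mul_gauss_le (n + 2) (c := 1) one_pos
  set J := ∫ y : ℝ, (1 + ‖y‖) ^ n * Real.exp (-1 * ‖y‖ ^ 2) with hJ
  have hJ0 : 0 ≤ J := integral_nonneg fun y => by positivity
  have hJi : ∀ e : ℝ, Integrable (fun y : ℝ => (1 + ‖y - e‖) ^ n * Real.exp (-1 * ‖y - e‖ ^ 2)) :=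
    fun e => (integrable_pow_gauss (V := ℝ) n (c := 1) one_pos).comp_sub_right e
  set E₀ := Real.exp (∑ j, (addw (-δ) p j) ^ 2) with hE₀
  set q := ∫ t, Q t / (1 + ‖t‖) ^ N with hq
  have hq0 : 0 ≤ q := integral_nonneg fun t => div_nonneg (hQ0 t) (by positivity)
  refine ⟨E₀ * J * C₁ * q, n + N, by positivity, fun η ξ => ?_⟩
  have hη0 : |η 0| ≤ ‖η‖ := PiLp.norm_apply_le (p := 2) η 0
  have hηs : ‖fun j : Fin k => η j.succ‖ ≤ ‖η‖ := by
    rw [pi_norm_le_iff_of_nonneg (norm_nonneg _)]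
    intro j
    exact PiLp.norm_apply_le (p := 2) η j.succ
  -- elementary inequalities
  have hv : ∀ (l : ℕ) (y : ℝ), (1 + |y|) ^ l ≤ (1 + ‖η‖) ^ l * (1 + |y - η 0|) ^ l := by
    intro l y
    rw [← mul_pow]
    have h1 := one_add_norm_add_le (η 0) (y - η 0)
    rw [add_sub_cancel] at h1
    simp only [Real.norm_eq_abs] at h1
    have h2 : 0 ≤ |y - η 0| := abs_nonneg _
    have h3 : 0 ≤ |y| := abs_nonneg _
    have h4 : 0 ≤ |η 0| := abs_nonneg _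
    calc (1 + |y|) ^ l ≤ ((1 + |η 0|) * (1 + |y - η 0|)) ^ l := by gcongr
      _ ≤ _ := by gcongr
  have ht : ∀ t : Fin k → ℝ, (1 + ‖t‖) ^ N * Real.exp (-∑ j : Fin k, (t j - η j.succ) ^ 2) ≤
      (1 + ‖η‖) ^ N * C₁ := by
    intro t
    set η' : Fin k → ℝ := fun j => η j.succ with hη'
    have h1 := one_add_norm_add_le η' (t - η')
    rw [add_sub_cancel] at h1
    have h2 := sup_sq_le (t - η')
    have h3 : Real.exp (-∑ j : Fin k, (t j - η j.succ) ^ 2) ≤ Real.exp (-1 * ‖t - η'‖ ^ 2) := by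
      apply Real.exp_le_exp.2
      have : ∑ j, (t - η') j ^ 2 = ∑ j : Fin k, (t j - η j.succ) ^ 2 := rfl
      rw [this] at h2
      linarith
    have h4 := hC₁ ‖t - η'‖ (norm_nonneg _)
    calc (1 + ‖t‖) ^ N * Real.exp (-∑ j : Fin k, (t j - η j.succ) ^ 2)
        ≤ ((1 + ‖η'‖) * (1 + ‖t - η'‖)) ^ N * Real.exp (-1 * ‖t - η'‖ ^ 2) := by gcongr
      _ = (1 + ‖η'‖) ^ N * ((1 + ‖t - η'‖) ^ N * Real.exp (-1 * ‖t - η'‖ ^ 2)) := by
          rw [mul_pow]; ring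
      _ ≤ (1 + ‖η‖) ^ N * C₁ := by gcongr
  -- sup on the strip
  have hcont : Continuous (fun x : ℝ => Real.exp (∑ j, (addw x p j) ^ 2) *
      Real.exp (-2 * Real.pi * ∑ j, addw x p j * ξ j)) := by
    have := continuous_addw p
    refine Continuous.mul (Real.continuous_exp.comp ?_) (Real.continuous_exp.comp ?_)
    · exact continuous_finsetSum _ fun j _ => ((continuous_apply j).comp this).pow 2
    · exact continuous_const.mul (continuous_finsetSum _ fun j _ =>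
        ((continuous_apply j).comp this).mul continuous_const)
  obtain ⟨E₁, hE₁⟩ := (isCompact_Icc (a := -δ) (b := T)).exists_bound_of_continuousOn hcont.continuousOn
  have hE₁0 : 0 ≤ E₁ := (norm_nonneg _).trans (hE₁ T ⟨hδT, le_rfl⟩)
  -- the inner integrals
  have hinner : ∀ᵐ t : Fin k → ℝ, ‖∫ y : ℝ,
      Pool.Agent.Q48.MDS.ker F' η ξ (pt (((addw T p) 0 : ℂ) + I * y) (ln (addw T p) t))‖ ≤
      (E₀ * J * C₁ * (1 + ‖η‖) ^ (n + N) * Real.exp (-2 * Real.pi * ∑ j, addw (-δ) p j * ξ j)) *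
        (Q t / (1 + ‖t‖) ^ N) := by
    filter_upwards [hg] with t hgt
    obtain ⟨hgt1, hgt2⟩ := hgt
    have e0 : (addw T p) 0 = p 0 + T := by simp [addw]
    have e1 : ln (addw T p) t = ln p t := by
      funext j
      simp [ln, addw, Fin.succ_ne_zero]
    rw [e0, e1]
    set h : ℂ → ℂ := fun w => g t w * kk η ξ (pt w (ln p t)) with hh
    have h1 : ∀ y : ℝ, Pool.Agent.Q48.MDS.ker F' η ξ (pt (((p 0 + T : ℝ) : ℂ) + I * y) (ln p t)) =
        h (((p 0 + T : ℝ) : ℂ) + I * y) := by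
      intro y
      rw [ker_eq_kk, ← hgt2 y]
    simp_rw [h1]
    have hnorm : ∀ w : ℂ, p 0 - δ ≤ w.re → w.re ≤ p 0 + T → ‖h w‖ ≤ (Q t * (1 + |w.im|) ^ n) *
        ((Real.exp (∑ j, (addw (w.re - p 0) p j) ^ 2) *
        Real.exp (-2 * Real.pi * ∑ j, addw (w.re - p 0) p j * ξ j)) *
        (Real.exp (-(w.im - η 0) ^ 2) * Real.exp (-∑ j : Fin k, (t j - η j.succ) ^ 2))) := by
      intro w hw1 hw2
      simp only [hh]
      rw [norm_mul, norm_kk_pt]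
      have := (hgt1 w hw1 hw2).2
      gcongr
    have hs := shift_line (h := h) (a := p 0 - δ) (b := p 0 + T)
      (C := Q t * E₁ * ((1 + ‖η‖) ^ (n + 2) * C₂)) (by linarith)
      (fun w hw => ((hgt1 w hw.1 hw.2).1.mul (DifferentiableAt.comp (f := fun w : ℂ => pt w (ln p t)) w
        (kk_diff η ξ _) (differentiable_pt (ln p t) w))).differentiableWithinAt)
      (by
        intro w hw1 hw2
        rw [le_div_iff₀ (by positivity)]
        have b1 := hnorm w hw1 hw2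
        have b2 : Real.exp (∑ j, (addw (w.re - p 0) p j) ^ 2) *
            Real.exp (-2 * Real.pi * ∑ j, addw (w.re - p 0) p j * ξ j) ≤ E₁ := by
          have := hE₁ (w.re - p 0) ⟨by linarith, by linarith⟩
          rwa [Real.norm_of_nonneg (by positivity)] at this
        have b3 : Real.exp (-∑ j : Fin k, (t j - η j.succ) ^ 2) ≤ 1 := by
          rw [Real.exp_le_one_iff, neg_nonpos]
          exact Finset.sum_nonneg fun j _ => sq_nonneg _
        have b4 : 1 + w.im ^ 2 ≤ (1 + |w.im|) ^ 2 := by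
          have := abs_nonneg w.im
          rw [← sq_abs w.im]; nlinarith
        have b5 : (1 + |w.im|) ^ (n + 2) * Real.exp (-(w.im - η 0) ^ 2) ≤ (1 + ‖η‖) ^ (n + 2) * C₂ := by
          have c1 := hC₂ |w.im - η 0| (abs_nonneg _)
          rw [sq_abs] at c1
          have c2 : -1 * (w.im - η 0) ^ 2 = -(w.im - η 0) ^ 2 := by ring
          rw [c2] at c1
          calc (1 + |w.im|) ^ (n + 2) * Real.exp (-(w.im - η 0) ^ 2)
              ≤ ((1 + ‖η‖) ^ (n + 2) * (1 + |w.im - η 0|) ^ (n + 2)) *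
                Real.exp (-(w.im - η 0) ^ 2) := by gcongr; exact hv _ _
            _ = (1 + ‖η‖) ^ (n + 2) * ((1 + |w.im - η 0|) ^ (n + 2) *
                Real.exp (-(w.im - η 0) ^ 2)) := by ring
            _ ≤ _ := by gcongr
        have b6 : 0 ≤ Q t := hQ0 t
        calc ‖h w‖ * (1 + w.im ^ 2) ≤ ((Q t * (1 + |w.im|) ^ n) *
              (E₁ * (Real.exp (-(w.im - η 0) ^ 2) * 1))) * (1 + |w.im|) ^ 2 := by
              refine mul_le_mul (b1.trans ?_) b4 (by positivity) (by positivity)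
              gcongr
          _ = Q t * E₁ * ((1 + |w.im|) ^ (n + 2) * Real.exp (-(w.im - η 0) ^ 2)) := by
              rw [pow_add]; ring
          _ ≤ _ := by gcongr)
    rw [← hs]
    -- the final bound
    have hfin : ∀ y : ℝ, ‖h (((p 0 - δ : ℝ) : ℂ) + I * y)‖ ≤
        (Q t * E₀ * Real.exp (-2 * Real.pi * ∑ j, addw (-δ) p j * ξ j) *
          Real.exp (-∑ j : Fin k, (t j - η j.succ) ^ 2) * (1 + ‖η‖) ^ n) *
          ((1 + ‖y - η 0‖) ^ n * Real.exp (-1 * ‖y - η 0‖ ^ 2)) := by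
      intro y
      have r1 : (((p 0 - δ : ℝ) : ℂ) + I * y).re = p 0 - δ := by simp
      have r2 : (((p 0 - δ : ℝ) : ℂ) + I * y).im = y := by simp
      have b1 := hnorm (((p 0 - δ : ℝ) : ℂ) + I * y) (by rw [r1]) (by rw [r1]; linarith)
      rw [r1, r2, show p 0 - δ - p 0 = -δ by ring] at b1
      refine b1.trans ?_
      have b2 := hv n y
      have b6 : 0 ≤ Q t := hQ0 t
      rw [Real.norm_eq_abs, sq_abs, show -1 * (y - η 0) ^ 2 = -(y - η 0) ^ 2 by ring]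
      calc _ ≤ (Q t * ((1 + ‖η‖) ^ n * (1 + |y - η 0|) ^ n)) *
            ((Real.exp (∑ j, (addw (-δ) p j) ^ 2) *
            Real.exp (-2 * Real.pi * ∑ j, addw (-δ) p j * ξ j)) *
            (Real.exp (-(y - η 0) ^ 2) * Real.exp (-∑ j : Fin k, (t j - η j.succ) ^ 2))) := by
            gcongr
        _ = _ := by rw [hE₀]; ring
    have hI := norm_integral_le_of_norm_le ((hJi (η 0)).const_mul
      (Q t * E₀ * Real.exp (-2 * Real.pi * ∑ j, addw (-δ) p j * ξ j) *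
          Real.exp (-∑ j : Fin k, (t j - η j.succ) ^ 2) * (1 + ‖η‖) ^ n))
      (Eventually.of_forall hfin)
    refine hI.trans ?_
    rw [integral_const_mul, integral_sub_right_eq_self (fun y : ℝ =>
          (1 + ‖y‖) ^ n * Real.exp (-1 * ‖y‖ ^ 2)) (η 0), ← hJ]
    have b3 := ht t
    have b6 : 0 ≤ Q t := hQ0 t
    have hpos : 0 < (1 + ‖t‖) ^ N := by positivity
    have b7 : Q t * Real.exp (-∑ j : Fin k, (t j - η j.succ) ^ 2) ≤
        Q t / (1 + ‖t‖) ^ N * ((1 + ‖η‖) ^ N * C₁) := by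
      rw [div_mul_eq_mul_div, le_div_iff₀ hpos]
      calc Q t * Real.exp (-∑ j : Fin k, (t j - η j.succ) ^ 2) * (1 + ‖t‖) ^ N
          = Q t * ((1 + ‖t‖) ^ N * Real.exp (-∑ j : Fin k, (t j - η j.succ) ^ 2)) := by ring
        _ ≤ _ := by gcongr
    calc Q t * E₀ * Real.exp (-2 * Real.pi * ∑ j, addw (-δ) p j * ξ j) *
          Real.exp (-∑ j : Fin k, (t j - η j.succ) ^ 2) * (1 + ‖η‖) ^ n * J
        = (E₀ * J * (1 + ‖η‖) ^ n * Real.exp (-2 * Real.pi * ∑ j, addw (-δ) p j * ξ j)) *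
          (Q t * Real.exp (-∑ j : Fin k, (t j - η j.succ) ^ 2)) := by ring
      _ ≤ (E₀ * J * (1 + ‖η‖) ^ n * Real.exp (-2 * Real.pi * ∑ j, addw (-δ) p j * ξ j)) *
          (Q t / (1 + ‖t‖) ^ N * ((1 + ‖η‖) ^ N * C₁)) := by gcongr
      _ = _ := by rw [pow_add]; ring
  rw [hat_iter hF η ξ hT]
  have hO := norm_integral_le_of_norm_le (hQi.const_mul _) hinner
  rw [integral_const_mul, ← hq] at hO
  have hexp : Real.exp (-2 * Real.pi * ∑ j, addw (-δ) p j * ξ j) *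
      Real.exp (2 * Real.pi * ∑ j, addw (-δ) p j * ξ j) = 1 := by
    rw [← Real.exp_add]
    have : -2 * Real.pi * ∑ j, addw (-δ) p j * ξ j + 2 * Real.pi * ∑ j, addw (-δ) p j * ξ j = 0 := by
      ring
    rw [this, Real.exp_zero]
  refine (mul_le_mul_of_nonneg_right hO (Real.exp_pos _).le).trans (le_of_eq ?_)
  calc _ = E₀ * J * C₁ * q * (1 + ‖η‖) ^ (n + N) *
        (Real.exp (-2 * Real.pi * ∑ j, addw (-δ) p j * ξ j) *
          Real.exp (2 * Real.pi * ∑ j, addw (-δ) p j * ξ j)) := by ring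
    _ = _ := by rw [hexp, mul_one]

end Pool.Agent.V5helper13.ML
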