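import Pool.Agent.V5helper13.ML.Inv

/-!
# From the continuation to the moments
-/

set_option autoImplicit false

open MeasureTheory Set Complex Filter Topology Metric

namespace Pool.Agent.V5helper13.ML

open Pool.Agent.Q48.MDS Pool.Agent.V5helper62.MD

/-- the inversion formula on a line of absolute convergence -/
theorem mom_inversion {k : ℕ} (M : ℕ) {m : ℕ} (hm : 2 ^ k < m) (p : Fin (k + 1) → ℝ)
    {T : ℝ} (hT : addw T p ∈ V k) (t : Fin k → ℝ) {X : ℝ} (hX : 0 < X) {C : ℝ}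
    (hb : ∀ y : ℝ, ‖F1 k M (pt (((p 0 + T : ℝ) : ℂ) + I * y) (ln p t)) *
      Phi m (((p 0 + T : ℝ) : ℂ) + I * y)‖ ≤ C / (1 + y ^ 2)) :
    mom Lf M m X (ln p t) = ((1 / (2 * Real.pi) : ℝ) : ℂ) *
      ∫ y : ℝ, (X : ℂ) ^ (((p 0 + T : ℝ) : ℂ) + I * y) *
        (F1 k M (pt (((p 0 + T : ℝ) : ℂ) + I * y) (ln p t)) *
          Phi m (((p 0 + T : ℝ) : ℂ) + I * y)) := by
  obtain ⟨σ, hσ⟩ : ∃ σ : ℝ, σ = p 0 + T := ⟨_, rfl⟩
  rw [← hσ] at hb ⊢
  have htube : ∀ w : ℂ, w.re = σ → pt w (ln p t) ∈ tube (V k) := by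
    intro w hw
    show (fun i => (pt w (ln p t) i).re) ∈ V k
    rw [re_pt_ln, hw, hσ, add_sub_cancel_left]
    exact hT
  have hσ0 : 0 < σ := by
    have h1 := V_pos (htube (σ : ℂ) (by simp))
    have h2 : (k : ℝ) + 1 < ((σ : ℂ)).re := h1
    rw [Complex.ofReal_re] at h2
    have : (0 : ℝ) ≤ k := Nat.cast_nonneg k
    linarith
  set f : ℝ → ℂ := fun x => mom Lf M m x⁻¹ (ln p t) with hf
  have hmel : ∀ w : ℂ, w.re = σ → mellin f w = F1 k M (pt w (ln p t)) * Phi m w := by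
    intro w hw
    rw [hf, mellin_comp_inv (fun x => mom Lf M m x (ln p t)) w]
    exact (mellin_mom M hm.le (htube w hw)).2
  have hconv : MellinConvergent f (σ : ℂ) := by
    have h1 := (mellin_mom M hm.le (htube (σ : ℂ) (by simp))).1
    have h2 := (MellinConvergent.comp_rpow (f := fun x => mom Lf M m x (ln p t)) (s := (σ : ℂ))
      (a := -1) (by norm_num)).2 (by
        have : ((σ : ℂ) / ((-1 : ℝ) : ℂ)) = -(σ : ℂ) := by push_cast; ring
        rw [this]; exact h1)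
    simpa only [Real.rpow_neg_one] using h2
  have hline : ∀ y : ℝ, ((σ : ℂ) + y * I) = (σ : ℂ) + I * y := fun y => by ring
  have hvert : VerticalIntegrable (mellin f) σ := by
    unfold VerticalIntegrable
    have h1 : ∀ y : ℝ, mellin f ((σ : ℂ) + y * I) = F1 k M (pt ((σ : ℂ) + I * y) (ln p t)) *
        Phi m ((σ : ℂ) + I * y) := by
      intro y
      rw [hline y]
      exact hmel _ (by simp)
    simp_rw [h1]
    have hcont : Continuous (fun y : ℝ => F1 k M (pt ((σ : ℂ) + I * y) (ln p t)) *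
        Phi m ((σ : ℂ) + I * y)) := by
      refine Continuous.mul ?_ ?_
      · refine (tempered_F1 (M := M) (isOpen_V k) (dom_V k M)).1.continuousOn.comp_continuous
          ((differentiable_pt _).continuous.comp (by fun_prop)) fun y => ?_
        exact htube _ (by simp)
      · refine continuous_iff_continuousAt.2 fun y => ?_
        have h2 : ContinuousAt (Phi m) ((σ : ℂ) + I * y) := (Phi_diff m (by simpa using hσ0)).continuousAt
        exact ContinuousAt.comp (f := fun y : ℝ => (σ : ℂ) + I * y) h2 (by fun_prop)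
    exact (integrable_inv_one_add_sq' C).mono' hcont.aestronglyMeasurable (Eventually.of_forall hb)
  have hcontat : ContinuousAt f X⁻¹ := by
    have h1 : ContinuousAt (fun Y => mom Lf M m Y (ln p t)) X := by
      have : (fun Y => mom Lf M m Y (ln p t)) = Rs (bet M (ln p t)) (wt m (ln p t)) :=
        funext fun Y => mom_eq M m Y (ln p t)
      rw [this]
      exact continuousAt_Rs _ (continuous_wt m _) (wt_one hm _) hX
    have h2 : ContinuousAt (fun x : ℝ => x⁻¹) X⁻¹ := continuousAt_inv₀ (inv_ne_zero hX.ne')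
    have h3 : ContinuousAt (fun Y => mom Lf M m Y (ln p t)) ((fun x : ℝ => x⁻¹) X⁻¹) := by
      simp only [inv_inv]; exact h1
    exact ContinuousAt.comp (f := fun x : ℝ => x⁻¹) h3 h2
  have key := mellinInv_mellin_eq σ f (inv_pos.2 hX) hconv hvert hcontat
  have h4 : f X⁻¹ = mom Lf M m X (ln p t) := by simp only [hf, inv_inv]
  rw [← h4, ← key]
  unfold mellinInv
  rw [Complex.real_smul]
  congr 1
  refine integral_congr_ae (Eventually.of_forall fun y => ?_)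
  show ((X⁻¹ : ℝ) : ℂ) ^ (-((σ : ℂ) + y * I)) • mellin f ((σ : ℂ) + y * I) = _
  rw [hline y, hmel _ (by simp), smul_eq_mul]
  congr 1
  have hX' : (X : ℂ).arg ≠ Real.pi := by
    rw [Complex.arg_ofReal_of_nonneg hX.le]
    exact Real.pi_pos.ne
  rw [Complex.ofReal_inv, Complex.inv_cpow _ _ hX', Complex.cpow_neg, inv_inv]

/-- **Continuation gives power savings.** -/
theorem power_of_continues {k M : ℕ} {p : Fin (k + 1) → ℝ} (hp : 0 < p 0)
    (h : ContinuesTo k M p) : ∃ (m₀ N : ℕ) (δ : ℝ), 0 < δ ∧ ∀ m ≥ m₀, ∃ C : ℝ, ∀ X : ℝ, 1 ≤ X →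
      ∀ t : Fin k → ℝ, ‖mom Lf M m X (ln p t)‖ ≤ C * X ^ (p 0 - δ) * (1 + ‖t‖) ^ N := by
  obtain ⟨Ω, G, hpΩ, hG⟩ := cont_of h
  obtain ⟨T, hT0, hTV⟩ := exists_addw_mem_V p
  obtain ⟨δ, hδ0, hδp, hδΩ⟩ : ∃ δ : ℝ, 0 < δ ∧ δ < p 0 ∧ addw (-δ) p ∈ Ω := by
    have h1 : ContinuousAt (fun x : ℝ => addw (-x) p) 0 :=
      ((continuous_addw p).comp continuous_neg).continuousAt
    have h2 : ∀ᶠ x : ℝ in 𝓝 0, addw (-x) p ∈ Ω := by
      apply h1
      have : (fun x : ℝ => addw (-x) p) 0 = p := by simp [addw_zero]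
      rw [this]
      exact hG.op.mem_nhds hpΩ
    have h3 : ∀ᶠ x : ℝ in 𝓝[>] 0, addw (-x) p ∈ Ω ∧ x < p 0 ∧ 0 < x := by
      filter_upwards [nhdsWithin_le_nhds h2, nhdsWithin_le_nhds (gt_mem_nhds hp),
        self_mem_nhdsWithin] with x h4 h5 h6 using ⟨h4, h5, h6⟩
    obtain ⟨x, hx⟩ := h3.exists
    exact ⟨x, hx.2.2, hx.2.1, hx.1⟩
  set K : Set (Fin (k + 1) → ℝ) := (fun x : ℝ => addw x p) '' Icc (-δ) T with hK
  have hKc : IsCompact K := isCompact_Icc.image (continuous_addw p)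
  have hKΩ : K ⊆ Ω := by
    rintro _ ⟨x, hx, rfl⟩
    exact mem_of_ge hG.op hG.conv hG.orth hδΩ (addw_mono p hx.1)
  obtain ⟨C, N, hC⟩ := hG.temp.2 K hKΩ hKc
  have hc0 : 0 < p 0 - δ := by linarith
  refine ⟨max (N + 1) (2 ^ k + 1), N, δ, hδ0, fun m hm => ?_⟩
  have hmN : N + 1 ≤ m := le_trans (le_max_left _ _) hm
  have hmk : 2 ^ k < m := lt_of_lt_of_le (Nat.lt_succ_self _) (le_trans (le_max_right _ _) hm)
  obtain ⟨B, hB0, hB⟩ := Phi_bound hc0 m
  set D := |C| * B with hD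
  have hD0 : 0 ≤ D := by positivity
  refine ⟨1 / (2 * Real.pi) * (D * Real.pi), fun X hX t => ?_⟩
  have hX0 : 0 < X := by linarith
  -- the bound in the strip
  have hstrip : ∀ w : ℂ, p 0 - δ ≤ w.re → w.re ≤ p 0 + T →
      ‖G (pt w (ln p t)) * Phi m w‖ ≤ D * (1 + ‖t‖) ^ N / (1 + w.im ^ 2) := by
    intro w hw1 hw2
    have h1 : (fun i => (pt w (ln p t) i).re) ∈ K := by
      rw [re_pt_ln]
      exact ⟨w.re - p 0, ⟨by linarith, by linarith⟩, rfl⟩
    have h2 := hC _ h1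
    have h3 := hB w hw1
    have h4 : ‖G (pt w (ln p t))‖ ≤ |C| * ((1 + |w.im|) * (1 + ‖t‖)) ^ N := by
      refine h2.trans ?_
      have := im_pt_ln p t w
      calc C * (1 + ‖fun i => (pt w (ln p t) i).im‖) ^ N
          ≤ |C| * (1 + ‖fun i => (pt w (ln p t) i).im‖) ^ N := by gcongr; exact le_abs_self C
        _ ≤ _ := by gcongr
    rw [norm_mul, le_div_iff₀ (by positivity)]
    have h5 : 1 + w.im ^ 2 ≤ (1 + |w.im|) ^ 2 := by
      have := abs_nonneg w.im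
      rw [← sq_abs w.im]; nlinarith
    have h6 : (1 + |w.im|) ^ N * (1 + |w.im|) ^ 2 ≤ (1 + |w.im|) ^ (m + 1) := by
      rw [← pow_add]
      exact pow_le_pow_right₀ (by linarith [abs_nonneg w.im]) (by omega)
    calc ‖G (pt w (ln p t))‖ * ‖Phi m w‖ * (1 + w.im ^ 2)
        ≤ (|C| * ((1 + |w.im|) * (1 + ‖t‖)) ^ N) * ‖Phi m w‖ * (1 + |w.im|) ^ 2 := by gcongr
      _ = |C| * (1 + ‖t‖) ^ N * (‖Phi m w‖ * ((1 + |w.im|) ^ N * (1 + |w.im|) ^ 2)) := by
          rw [mul_pow]; ring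
      _ ≤ |C| * (1 + ‖t‖) ^ N * (‖Phi m w‖ * (1 + |w.im|) ^ (m + 1)) := by gcongr
      _ ≤ |C| * (1 + ‖t‖) ^ N * B := by gcongr
      _ = _ := by rw [hD]; ring
  have hGF : ∀ y : ℝ, G (pt (((p 0 + T : ℝ) : ℂ) + I * y) (ln p t)) =
      F1 k M (pt (((p 0 + T : ℝ) : ℂ) + I * y) (ln p t)) := by
    intro y
    refine hG.eqV ?_
    show (fun i => (pt (((p 0 + T : ℝ) : ℂ) + I * y) (ln p t) i).re) ∈ Pool.Agent.V5helper62.MD.V k
    rw [re_pt_ln]
    have : (((p 0 + T : ℝ) : ℂ) + I * y).re - p 0 = T := by simp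
    rw [this]; exact hTV
  have hinv := mom_inversion M hmk p hTV t hX0 (C := D * (1 + ‖t‖) ^ N) (fun y => by
    rw [← hGF y]
    have := hstrip (((p 0 + T : ℝ) : ℂ) + I * y) (by simp; linarith) (by simp)
    simpa using this)
  have hinv' : mom Lf M m X (ln p t) = ((1 / (2 * Real.pi) : ℝ) : ℂ) *
      ∫ y : ℝ, (fun w : ℂ => (X : ℂ) ^ w * (G (pt w (ln p t)) * Phi m w))
        (((p 0 + T : ℝ) : ℂ) + I * y) := by
    rw [hinv]
    congr 1
    refine integral_congr_ae (Eventually.of_forall fun y => ?_)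
    show _ = (X : ℂ) ^ (((p 0 + T : ℝ) : ℂ) + I * y) *
      (G (pt (((p 0 + T : ℝ) : ℂ) + I * y) (ln p t)) * Phi m (((p 0 + T : ℝ) : ℂ) + I * y))
    rw [hGF y]
  have hXn : ∀ w : ℂ, ‖(X : ℂ) ^ w‖ = X ^ w.re := fun w =>
    Complex.norm_cpow_eq_rpow_re_of_pos hX0 w
  have hshift := shift_line (h := fun w : ℂ => (X : ℂ) ^ w * (G (pt w (ln p t)) * Phi m w))
    (a := p 0 - δ) (b := p 0 + T) (C := X ^ (p 0 + T) * (D * (1 + ‖t‖) ^ N)) (by linarith)
    (by
      intro w hw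
      apply DifferentiableAt.differentiableWithinAt
      refine DifferentiableAt.mul ?_ (DifferentiableAt.mul ?_ ?_)
      · exact DifferentiableAt.const_cpow differentiableAt_id (Or.inl (by exact_mod_cast hX0.ne'))
      · have h1 : DifferentiableAt ℂ G (pt w (ln p t)) := by
          refine hG.temp.1.differentiableAt ((isOpen_tube hG.op).mem_nhds ?_)
          show (fun i => (pt w (ln p t) i).re) ∈ Ω
          rw [re_pt_ln]
          exact hKΩ ⟨w.re - p 0, ⟨by linarith [hw.1], by linarith [hw.2]⟩, rfl⟩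
        exact DifferentiableAt.comp (f := fun w : ℂ => pt w (ln p t)) w h1
          (differentiable_pt (ln p t) w)
      · exact Phi_diff m (by linarith [hw.1]))
    (by
      intro w hw1 hw2
      show ‖(X : ℂ) ^ w * (G (pt w (ln p t)) * Phi m w)‖ ≤ _
      rw [norm_mul, hXn, mul_div_assoc]
      have h1 := hstrip w hw1 hw2
      have h2 : X ^ w.re ≤ X ^ (p 0 + T) := Real.rpow_le_rpow_of_exponent_le hX hw2
      gcongr)
  rw [hinv', ← hshift, norm_mul, Complex.norm_real, Real.norm_of_nonneg (by positivity)]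
  have hfin : ‖∫ y : ℝ, (fun w : ℂ => (X : ℂ) ^ w * (G (pt w (ln p t)) * Phi m w))
      (((p 0 - δ : ℝ) : ℂ) + I * y)‖ ≤ ∫ y : ℝ, (X ^ (p 0 - δ) * (D * (1 + ‖t‖) ^ N)) / (1 + y ^ 2) := by
    refine norm_integral_le_of_norm_le (integrable_inv_one_add_sq' _) (Eventually.of_forall fun y => ?_)
    show ‖(X : ℂ) ^ (((p 0 - δ : ℝ) : ℂ) + I * y) * (G (pt (((p 0 - δ : ℝ) : ℂ) + I * y) (ln p t)) *
      Phi m (((p 0 - δ : ℝ) : ℂ) + I * y))‖ ≤ _
    have e1 : (((p 0 - δ : ℝ) : ℂ) + I * y).re = p 0 - δ := by simp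
    have e2 : (((p 0 - δ : ℝ) : ℂ) + I * y).im = y := by simp
    have h1 := hstrip (((p 0 - δ : ℝ) : ℂ) + I * y) (by rw [e1]) (by rw [e1]; linarith)
    rw [e2] at h1
    rw [norm_mul, hXn, e1, mul_div_assoc]
    gcongr
  have hval : ∫ y : ℝ, (X ^ (p 0 - δ) * (D * (1 + ‖t‖) ^ N)) / (1 + y ^ 2) =
      (X ^ (p 0 - δ) * (D * (1 + ‖t‖) ^ N)) * Real.pi := by
    simp_rw [div_eq_mul_inv]
    rw [integral_const_mul, integral_univ_inv_one_add_sq]
  rw [hval] at hfin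
  have hpi : (0 : ℝ) ≤ 1 / (2 * Real.pi) := by positivity
  refine (mul_le_mul_of_nonneg_left hfin hpi).trans (le_of_eq ?_)
  ring

end Pool.Agent.V5helper13.ML
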