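import Pool.Agent.V5helper13.ML.Defs

/-!
# Moving a vertical line of integration
-/

set_option autoImplicit false

open MeasureTheory Set Complex Filter Topology

namespace Pool.Agent.V5helper13.ML

theorem integrable_inv_one_add_sq' (C : ℝ) : Integrable (fun y : ℝ => C / (1 + y ^ 2)) := by
  have := (integrable_inv_one_add_sq).const_mul C
  simpa [div_eq_mul_inv] using this

theorem line_integrable {h : ℂ → ℂ} {a C : ℝ} (hc : Continuous (fun y : ℝ => h ((a : ℂ) + I * y)))
    (hb : ∀ y : ℝ, ‖h ((a : ℂ) + I * y)‖ ≤ C / (1 + y ^ 2)) :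
    Integrable (fun y : ℝ => h ((a : ℂ) + I * y)) :=
  (integrable_inv_one_add_sq' C).mono' hc.aestronglyMeasurable (Eventually.of_forall hb)

theorem shift_line {h : ℂ → ℂ} {a b C : ℝ} (hab : a ≤ b)
    (hd : DifferentiableOn ℂ h {w | a ≤ w.re ∧ w.re ≤ b})
    (hb : ∀ w : ℂ, a ≤ w.re → w.re ≤ b → ‖h w‖ ≤ C / (1 + w.im ^ 2)) :
    ∫ y : ℝ, h ((a : ℂ) + I * y) = ∫ y : ℝ, h ((b : ℂ) + I * y) := by
  have hline : ∀ c : ℝ, a ≤ c → c ≤ b → Integrable (fun y : ℝ => h ((c : ℂ) + I * y)) := by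
    intro c hc1 hc2
    refine line_integrable (C := C) ?_ ?_
    · refine hd.continuousOn.comp_continuous (by fun_prop) fun y => ?_
      simp [hc1, hc2]
    · intro y
      have := hb ((c : ℂ) + I * y) (by simpa using hc1) (by simpa using hc2)
      simpa using this
  -- the rectangle
  have hrect : ∀ T : ℝ, I * (∫ y in (-T)..T, h ((b : ℂ) + I * y)) -
      I * (∫ y in (-T)..T, h ((a : ℂ) + I * y)) =
      (∫ x in a..b, h ((x : ℂ) + I * T)) - ∫ x in a..b, h ((x : ℂ) + I * (-T : ℝ)) := by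
    intro T
    have h1 := Complex.integral_boundary_rect_eq_zero_of_differentiableOn h
      ((a : ℂ) + I * (-T : ℝ)) ((b : ℂ) + I * T) (hd.mono ?_)
    · have e1 : ((a : ℂ) + I * (-T : ℝ)).re = a := by simp
      have e2 : ((a : ℂ) + I * (-T : ℝ)).im = -T := by simp
      have e3 : ((b : ℂ) + I * T).re = b := by simp
      have e4 : ((b : ℂ) + I * T).im = T := by simp
      rw [e1, e2, e3, e4] at h1
      simp only [smul_eq_mul] at h1
      have c1 : ∀ x y : ℝ, (x : ℂ) + y * I = (x : ℂ) + I * y := fun x y => by ring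
      simp only [c1] at h1
      linear_combination h1
    · intro w hw
      rw [Complex.mem_reProdIm] at hw
      have h2 := hw.1
      simp only [Complex.add_re, Complex.ofReal_re, Complex.mul_re, Complex.I_re, zero_mul,
        Complex.I_im, Complex.ofReal_im, mul_zero, sub_zero, add_zero] at h2
      rw [uIcc_of_le hab] at h2
      exact h2
  have hT : ∀ c : ℝ, a ≤ c → c ≤ b → Tendsto (fun T : ℝ => ∫ y in (-T)..T, h ((c : ℂ) + I * y))
      atTop (𝓝 (∫ y : ℝ, h ((c : ℂ) + I * y))) := fun c h1 h2 =>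
    intervalIntegral_tendsto_integral (hline c h1 h2) tendsto_neg_atTop_atBot tendsto_id
  have hside : ∀ T : ℝ, ‖(∫ x in a..b, h ((x : ℂ) + I * T)) - ∫ x in a..b, h ((x : ℂ) + I * (-T : ℝ))‖
      ≤ 2 * (C / (1 + T ^ 2) * |b - a|) := by
    intro T
    have key : ∀ S : ℝ, S ^ 2 = T ^ 2 → ‖∫ x in a..b, h ((x : ℂ) + I * S)‖ ≤ C / (1 + T ^ 2) * |b - a| := by
      intro S hS
      refine intervalIntegral.norm_integral_le_of_norm_le_const fun x hx => ?_
      rw [uIoc_of_le hab] at hx
      have := hb ((x : ℂ) + I * S) (by simpa using hx.1.le) (by simpa using hx.2)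
      simpa [hS] using this
    have k1 := key T rfl
    have k2 := key (-T) (by ring)
    refine (norm_sub_le _ _).trans ?_
    linarith
  have hlim : Tendsto (fun T : ℝ => I * (∫ y in (-T)..T, h ((b : ℂ) + I * y)) -
      I * (∫ y in (-T)..T, h ((a : ℂ) + I * y))) atTop (𝓝 0) := by
    have h2 : Tendsto (fun T : ℝ => 2 * (C / (1 + T ^ 2) * |b - a|)) atTop (𝓝 0) := by
      have h3 : Tendsto (fun T : ℝ => C / (1 + T ^ 2)) atTop (𝓝 0) := by
        refine Tendsto.div_atTop tendsto_const_nhds ?_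
        exact tendsto_atTop_add_const_left _ _ (tendsto_pow_atTop two_ne_zero)
      have h4 := (h3.mul_const |b - a|).const_mul 2
      simpa using h4
    refine squeeze_zero_norm (fun T => ?_) h2
    rw [hrect T]
    exact hside T
  have hlim2 := ((hT b hab le_rfl).const_mul I).sub ((hT a le_rfl hab).const_mul I)
  have h5 := tendsto_nhds_unique hlim2 hlim
  have h6 : I * ((∫ y : ℝ, h ((b : ℂ) + I * y)) - ∫ y : ℝ, h ((a : ℂ) + I * y)) = 0 := by
    rw [mul_sub]; exact h5
  have h7 := (mul_eq_zero.1 h6).resolve_left I_ne_zero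
  exact (sub_eq_zero.1 h7).symm

end Pool.Agent.V5helper13.ML
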