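import Pool.Agent.V5helper13.ML.Link
import Pool.Agent.V5helper13.ML.Shift

/-!
# From the continuation to the moments: Mellin inversion and a contour shift
-/

set_option autoImplicit false

open MeasureTheory Set Complex Filter Topology Metric

namespace Pool.Agent.V5helper13.ML

open Pool.Agent.Q48.MDS Pool.Agent.V5helper62.MD

theorem Phi_bound {c : ℝ} (hc : 0 < c) (m : ℕ) : ∃ K : ℝ, 0 ≤ K ∧ ∀ w : ℂ, c ≤ w.re →
    ‖Phi m w‖ * (1 + |w.im|) ^ (m + 1) ≤ K := by
  set κ := min c 1 / 2 with hκ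
  have hκ0 : 0 < κ := by positivity
  refine ⟨m.factorial / κ ^ (m + 1), by positivity, fun w hw => ?_⟩
  have h1 : ∀ i : ℕ, κ * (1 + |w.im|) ≤ ‖w + i‖ := by
    intro i
    have e1 : |(w + i).re| ≤ ‖w + i‖ := Complex.abs_re_le_norm _
    have e2 : |(w + i).im| ≤ ‖w + i‖ := Complex.abs_im_le_norm _
    have e3 : (w + i).re = w.re + i := by simp
    have e4 : (w + i).im = w.im := by simp
    rw [e3] at e1
    rw [e4] at e2
    have hi : (0 : ℝ) ≤ i := Nat.cast_nonneg i
    have e5 : c ≤ |w.re + i| := by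
      rw [abs_of_pos (by linarith)]; linarith
    have e6 : min c 1 ≤ c := min_le_left _ _
    have e7 : min c 1 ≤ 1 := min_le_right _ _
    have e8 : 0 ≤ |w.im| := abs_nonneg _
    have e9 : min c 1 * |w.im| ≤ 1 * |w.im| := by gcongr
    rw [hκ]
    linarith
  have h2 : (κ * (1 + |w.im|)) ^ (m + 1) ≤ ‖∏ i ∈ Finset.range (m + 1), (w + (i : ℂ))‖ := by
    rw [norm_prod]
    calc (κ * (1 + |w.im|)) ^ (m + 1) = ∏ _i ∈ Finset.range (m + 1), (κ * (1 + |w.im|)) := by simp
      _ ≤ _ := Finset.prod_le_prod (fun i _ => by positivity) fun i _ => h1 i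
  have h0 : 0 < (κ * (1 + |w.im|)) ^ (m + 1) := by positivity
  unfold Phi
  rw [norm_div, Complex.norm_natCast, div_mul_eq_mul_div, div_le_div_iff₀ (h0.trans_le h2)
    (by positivity)]
  calc (m.factorial : ℝ) * (1 + |w.im|) ^ (m + 1) * κ ^ (m + 1)
      = (m.factorial : ℝ) * (κ * (1 + |w.im|)) ^ (m + 1) := by rw [mul_pow]; ring
    _ ≤ _ := by gcongr

theorem invPhi_bound (α β : ℝ) (m : ℕ) : ∃ B : ℝ, 0 ≤ B ∧ ∀ w : ℂ, α ≤ w.re → w.re ≤ β →
    ‖(∏ i ∈ Finset.range (m + 1), (w + (i : ℂ))) / (m.factorial : ℂ)‖ ≤ B * (1 + |w.im|) ^ (m + 1) := by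
  set R := |α| + |β| + m + 1 with hR
  have hR0 : 0 ≤ R := by positivity
  refine ⟨R ^ (m + 1), by positivity, fun w hw1 hw2 => ?_⟩
  have h1 : ∀ i ∈ Finset.range (m + 1), ‖w + i‖ ≤ R * (1 + |w.im|) := by
    intro i hi
    have hi' : (i : ℝ) ≤ m := by
      have := Finset.mem_range.1 hi
      exact_mod_cast Nat.lt_succ_iff.1 this
    have e1 : |w.re| ≤ |α| + |β| := by
      rw [abs_le]
      constructor
      · linarith [neg_abs_le α, abs_nonneg β]
      · linarith [le_abs_self β, abs_nonneg α]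
    have e2 : ‖w‖ ≤ |w.re| + |w.im| := Complex.norm_le_abs_re_add_abs_im w
    have e3 : ‖w + i‖ ≤ ‖w‖ + i := by
      refine (norm_add_le _ _).trans ?_
      rw [Complex.norm_natCast]
    have e4 : 0 ≤ |w.im| := abs_nonneg _
    rw [hR]
    nlinarith [abs_nonneg α, abs_nonneg β, (Nat.cast_nonneg m : (0 : ℝ) ≤ m)]
  rw [norm_div, norm_prod, Complex.norm_natCast]
  have h2 : ∏ i ∈ Finset.range (m + 1), ‖w + (i : ℂ)‖ ≤ (R * (1 + |w.im|)) ^ (m + 1) := by
    calc _ ≤ ∏ _i ∈ Finset.range (m + 1), (R * (1 + |w.im|)) :=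
          Finset.prod_le_prod (fun i _ => norm_nonneg _) h1
      _ = _ := by simp
  have h3 : (1 : ℝ) ≤ m.factorial := by exact_mod_cast Nat.factorial_pos m
  rw [← mul_pow]
  refine (div_le_self (Finset.prod_nonneg fun i _ => norm_nonneg _) h3).trans h2

theorem continuousAt_Rs (b : ℕ → ℂ) {g : ℝ → ℂ} (hg : Continuous g) (h1 : g 1 = 0) {X : ℝ}
    (hX : 0 < X) : ContinuousAt (Rs b g) X := by
  set gp : ℝ → ℂ := fun x => if x ≤ 1 then g x else 0 with hgp
  have hgc : Continuous gp := by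
    refine Continuous.if_le hg continuous_const continuous_id continuous_const ?_
    intro x hx
    have hx' : x = 1 := hx
    rw [hx', h1]
  have h2 : ContinuousAt (fun Y : ℝ => ∑ n ∈ Finset.range (⌊X⌋₊ + 2), b n * gp ((n : ℝ) / Y)) X := by
    refine tendsto_finsetSum _ fun n _ => ?_
    refine Tendsto.const_mul _ ?_
    have h3 : ContinuousAt (fun Y : ℝ => (n : ℝ) / Y) X :=
      continuousAt_const.div continuousAt_id hX.ne'
    exact (hgc.continuousAt.comp h3)
  refine h2.congr ?_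
  have h3 : ∀ᶠ Y : ℝ in 𝓝 X, 0 < Y ∧ Y < X + 1 := by
    filter_upwards [lt_mem_nhds hX, gt_mem_nhds (show X < X + 1 by linarith)] with Y h4 h5
    exact ⟨h4, h5⟩
  filter_upwards [h3] with Y hY
  unfold Rs
  symm
  have h4 : ⌊Y⌋₊ + 1 ≤ ⌊X⌋₊ + 2 := by
    have h5 : ⌊Y⌋₊ ≤ ⌊X + 1⌋₊ := Nat.floor_mono hY.2.le
    rw [Nat.floor_add_one hX.le] at h5
    omega
  have h5 : ∀ n ∈ Finset.range (⌊Y⌋₊ + 1), b n * g ((n : ℝ) / Y) = b n * gp ((n : ℝ) / Y) := by
    intro n hn
    have h6 : n ≤ ⌊Y⌋₊ := by have := Finset.mem_range.1 hn; omega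
    have h7 : (n : ℝ) ≤ Y := (Nat.le_floor_iff hY.1.le).1 h6
    simp only [hgp]
    rw [if_pos ((div_le_one hY.1).2 h7)]
  rw [Finset.sum_congr rfl h5]
  refine Finset.sum_subset (Finset.range_mono h4) fun n _ hn => ?_
  have h6 : ¬ (n : ℝ) ≤ Y := by
    intro h
    apply hn
    rw [Finset.mem_range]
    have := (Nat.le_floor_iff hY.1.le).2 h
    omega
  simp only [hgp]
  rw [if_neg, mul_zero]
  rw [div_le_one hY.1]
  exact h6

/-- real parts of `(w, a + i t)` -/
theorem re_pt_ln {k : ℕ} (p : Fin (k + 1) → ℝ) (t : Fin k → ℝ) (w : ℂ) :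
    (fun i => (pt w (ln p t) i).re) = addw (w.re - p 0) p := by
  funext i
  refine Fin.cases ?_ (fun j => ?_) i
  · simp [pt_zero, addw]
  · simp [pt_succ, addw, ln, Fin.succ_ne_zero]

theorem im_pt_ln {k : ℕ} (p : Fin (k + 1) → ℝ) (t : Fin k → ℝ) (w : ℂ) :
    1 + ‖fun i => (pt w (ln p t) i).im‖ ≤ (1 + |w.im|) * (1 + ‖t‖) := by
  have h1 : ‖fun i => (pt w (ln p t) i).im‖ ≤ |w.im| + ‖t‖ := by
    rw [pi_norm_le_iff_of_nonneg (by positivity)]
    intro i
    refine Fin.cases ?_ (fun j => ?_) i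
    · simp only [pt_zero, Real.norm_eq_abs]
      linarith [norm_nonneg t]
    · have : (pt w (ln p t) j.succ).im = t j := by simp [pt_succ, ln]
      simp only [this]
      have := norm_le_pi_norm t j
      linarith [abs_nonneg w.im]
  nlinarith [abs_nonneg w.im, norm_nonneg t]

theorem continuous_addw {k : ℕ} (p : Fin (k + 1) → ℝ) : Continuous (fun x : ℝ => addw x p) := by
  refine continuous_pi fun i => ?_
  unfold addw
  by_cases h : i = 0
  · simp only [h, if_true]; fun_prop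
  · simp only [h, if_false]; fun_prop

theorem addw_zero {k : ℕ} (p : Fin (k + 1) → ℝ) : addw 0 p = p := by
  funext i
  unfold addw
  split_ifs with h
  · subst h; simp
  · rfl

theorem addw_mono {k : ℕ} (p : Fin (k + 1) → ℝ) {x y : ℝ} (h : x ≤ y) (i : Fin (k + 1)) :
    addw x p i ≤ addw y p i := by
  unfold addw
  split_ifs
  · linarith
  · exact le_rfl

theorem differentiable_pt {k : ℕ} (s : Fin k → ℂ) : Differentiable ℂ (fun w : ℂ => pt w s) := by
  rw [differentiable_pi]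
  intro i
  refine Fin.cases ?_ (fun j => ?_) i
  · simp only [pt_zero]; exact differentiable_id
  · simp only [pt_succ]; exact differentiable_const _

theorem Phi_diff (m : ℕ) {w : ℂ} (hw : 0 < w.re) : DifferentiableAt ℂ (Phi m) w := by
  unfold Phi
  refine DifferentiableAt.div (differentiableAt_const _) ?_ ?_
  · fun_prop
  · rw [Finset.prod_ne_zero_iff]
    intro i _ h
    have h3 := congrArg Complex.re h
    simp at h3
    have : (0 : ℝ) ≤ i := Nat.cast_nonneg i
    linarith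

end Pool.Agent.V5helper13.ML
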