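import Pool.Agent.V5helper13.ML.Inv

/-!
# The Fourier-Laplace transform as an iterated integral
-/

set_option autoImplicit false

open MeasureTheory Set Complex Filter Topology Metric

namespace Pool.Agent.V5helper13.ML

open Pool.Agent.Q48.MDS Pool.Agent.V5helper62.MD

theorem cpt_cons {k : ℕ} (x : Fin (k + 1) → ℝ) (y₀ : ℝ) (t : Fin k → ℝ) :
    cpt (rl x) (WithLp.toLp 2 (Fin.cons y₀ t : Fin (k + 1) → ℝ)) = pt ((x 0 : ℂ) + I * y₀) (ln x t) := by
  funext i
  refine Fin.cases ?_ (fun j => ?_) i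
  · simp [cpt, rl, pt_zero]
  · simp [cpt, rl, pt_succ, ln]

theorem hat_iter {k : ℕ} {Ω : Set (Fin (k + 1) → ℝ)} {F' : (Fin (k + 1) → ℂ) → ℂ}
    (hF : Tempered Ω F') (η ξ : EuclideanSpace ℝ (Fin (k + 1))) {x : Fin (k + 1) → ℝ} (hx : x ∈ Ω) :
    hat F' η ξ (rl x) = ∫ t : Fin k → ℝ, ∫ y₀ : ℝ,
      Pool.Agent.Q48.MDS.ker F' η ξ (pt ((x 0 : ℂ) + I * y₀) (ln x t)) := by
  have hint := integrable_ker hF η ξ (rl_mem hx)
  unfold hat
  set K : EuclideanSpace ℝ (Fin (k + 1)) → ℂ := fun y => Pool.Agent.Q48.MDS.ker F' η ξ (cpt (rl x) y) with hK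
  have hemb : MeasurableEmbedding (@WithLp.toLp 2 (Fin (k + 1) → ℝ)) :=
    (MeasurableEquiv.toLp 2 (Fin (k + 1) → ℝ)).measurableEmbedding
  have h1 : ∫ y, K y = ∫ v : Fin (k + 1) → ℝ, K (WithLp.toLp 2 v) :=
    ((PiLp.volume_preserving_toLp (Fin (k + 1))).integral_comp hemb K).symm
  have h1i : Integrable (fun v : Fin (k + 1) → ℝ => K (WithLp.toLp 2 v)) :=
    ((PiLp.volume_preserving_toLp (Fin (k + 1))).integrable_comp_emb hemb).2 hint
  have hp := (volume_preserving_piFinSuccAbove (fun _ : Fin (k + 1) => ℝ) 0).symm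
  have he : ∀ q : ℝ × (Fin k → ℝ), (MeasurableEquiv.piFinSuccAbove (fun _ : Fin (k + 1) => ℝ) 0).symm q =
      (Fin.cons q.1 q.2 : Fin (k + 1) → ℝ) := by
    intro q
    exact Fin.insertNth_zero' q.1 q.2
  have h2 : ∫ v : Fin (k + 1) → ℝ, K (WithLp.toLp 2 v) =
      ∫ q : ℝ × (Fin k → ℝ), K (WithLp.toLp 2 (Fin.cons q.1 q.2 : Fin (k + 1) → ℝ)) := by
    have := hp.integral_comp' (fun v : Fin (k + 1) → ℝ => K (WithLp.toLp 2 v))
    rw [← this]
    simp_rw [he]
  have h2i : Integrable (fun q : ℝ × (Fin k → ℝ) => K (WithLp.toLp 2 (Fin.cons q.1 q.2 : Fin (k + 1) → ℝ)))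
      ((volume : Measure ℝ).prod (volume : Measure (Fin k → ℝ))) := by
    have := (hp.integrable_comp_emb (MeasurableEquiv.measurableEmbedding _)).2 h1i
    simp only [Function.comp_def, he] at this
    exact this
  have h3 := integral_prod_symm _ h2i
  show ∫ y, K y = _
  rw [h1, h2]
  refine Eq.trans ?_ (h3.trans ?_)
  · rfl
  · refine integral_congr_ae (Eventually.of_forall fun t => ?_)
    refine integral_congr_ae (Eventually.of_forall fun y₀ => ?_)
    simp only [hK]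
    rw [cpt_cons]

end Pool.Agent.V5helper13.ML
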