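import Pool.Agent.V5helper13.ML.Defs

/-!
# Partial fractions and the weights
-/

set_option autoImplicit false

open MeasureTheory Set Complex Filter Topology

namespace Pool.Agent.V5helper13.ML

open Pool.Agent.Q48.MDS Pool.Agent.V5helper62.MD

theorem prod_erase_split (f : ℕ → ℂ) (i n : ℕ) :
    ∏ j ∈ (Finset.range (i + n + 1)).erase i, f j =
      (∏ j ∈ Finset.range i, f j) * ∏ j ∈ Finset.range n, f (i + 1 + j) := by
  have h : (Finset.range (i + n + 1)).erase i =
      Finset.range i ∪ (Finset.range n).map (addLeftEmbedding (i + 1)) := by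
    ext j
    simp only [Finset.mem_erase, Finset.mem_range, Finset.mem_union, Finset.mem_map,
      addLeftEmbedding_apply]
    constructor
    · rintro ⟨h1, h2⟩
      rcases lt_or_gt_of_ne h1 with h3 | h3
      · exact Or.inl h3
      · exact Or.inr ⟨j - (i + 1), by omega, by omega⟩
    · rintro (h1 | ⟨a, ha, rfl⟩)
      · exact ⟨by omega, by omega⟩
      · exact ⟨by omega, by omega⟩
  rw [h, Finset.prod_union, Finset.prod_map]
  · rfl
  · rw [Finset.disjoint_left]
    intro j hj hj'
    simp only [Finset.mem_range, Finset.mem_map, addLeftEmbedding_apply] at hj hj'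
    obtain ⟨a, _, rfl⟩ := hj'
    omega

theorem prod_neg_range (i : ℕ) : ∏ j ∈ Finset.range i, ((j : ℂ) - i) = (-1) ^ i * (i.factorial : ℂ) := by
  have h : ∏ j ∈ Finset.range i, ((j : ℂ) - i) = ∏ j ∈ Finset.range i, ((-1) * ((j : ℂ) + 1)) := by
    rw [← Finset.prod_range_reflect]
    refine Finset.prod_congr rfl fun j hj => ?_
    have hj' := Finset.mem_range.1 hj
    have : ((i - 1 - j : ℕ) : ℂ) = (i : ℂ) - 1 - j := by
      rw [Nat.cast_sub (by omega), Nat.cast_sub (by omega)]
      simp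
    rw [this]; ring
  rw [h, Finset.prod_mul_distrib, Finset.prod_const, Finset.card_range]
  congr 1
  rw [← Finset.prod_range_add_one_eq_factorial]
  push_cast
  rfl

theorem prod_pos_range (i n : ℕ) : ∏ j ∈ Finset.range n, (((i + 1 + j : ℕ) : ℂ) - i) = (n.factorial : ℂ) := by
  rw [← Finset.prod_range_add_one_eq_factorial]
  push_cast
  refine Finset.prod_congr rfl fun j _ => ?_
  ring

theorem weight_eq {m i : ℕ} (hi : i ≤ m) :
    (m.factorial : ℂ) * Lagrange.nodalWeight (Finset.range (m + 1)) (fun j : ℕ => -(j : ℂ)) i =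
      (-1) ^ i * (m.choose i : ℂ) := by
  obtain ⟨n, rfl⟩ := Nat.exists_eq_add_of_le hi
  unfold Lagrange.nodalWeight
  have h1 : ∏ j ∈ (Finset.range (i + n + 1)).erase i, (-(i : ℂ) - -(j : ℂ))⁻¹ =
      (((-1) ^ i * (i.factorial : ℂ)) * (n.factorial : ℂ))⁻¹ := by
    rw [Finset.prod_inv_distrib]
    congr 1
    have h2 : ∀ j : ℕ, -(i : ℂ) - -(j : ℂ) = (j : ℂ) - i := fun j => by ring
    simp only [h2]
    rw [prod_erase_split (fun j => (j : ℂ) - i), prod_neg_range, prod_pos_range]
  rw [h1, Nat.choose_symm_add, Nat.add_choose i n, Nat.cast_div (Nat.factorial_mul_factorial_dvd_factorial_add i n)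
    (by exact_mod_cast (Nat.mul_pos (Nat.factorial_pos i) (Nat.factorial_pos n)).ne')]
  have hi0 : (i.factorial : ℂ) ≠ 0 := by exact_mod_cast i.factorial_ne_zero
  have hn0 : (n.factorial : ℂ) ≠ 0 := by exact_mod_cast n.factorial_ne_zero
  have h3 : ((-1 : ℂ) ^ i) * (-1) ^ i = 1 := by rw [← mul_pow]; simp
  push_cast
  field_simp
  linear_combination (-((i + n).factorial : ℂ)) * h3

theorem partial_fractions {m : ℕ} (P : Polynomial ℂ) (hP : P.natDegree ≤ m) {w : ℂ}
    (hw : ∀ j ∈ Finset.range (m + 1), w + j ≠ 0) :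
    ∑ j ∈ Finset.range (m + 1), (-1) ^ j * (m.choose j : ℂ) * P.eval (-(j : ℂ)) / (w + j) =
      P.eval w * Phi m w := by
  have hinj : Set.InjOn (fun j : ℕ => -(j : ℂ)) (Finset.range (m + 1) : Set ℕ) := by
    intro a _ b _ hab
    simpa using hab
  have hdeg : P.degree < (Finset.range (m + 1)).card := by
    rw [Finset.card_range]
    refine (Polynomial.degree_le_of_natDegree_le hP).trans_lt ?_
    exact_mod_cast Nat.lt_succ_self m
  have h1 := Lagrange.eq_interpolate hinj hdeg
  have h2 : P.eval w = (Lagrange.interpolate (Finset.range (m + 1)) (fun j : ℕ => -(j : ℂ))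
      fun i => P.eval (-(i : ℂ))).eval w := by
    conv_lhs => rw [h1]
  rw [Lagrange.eval_interpolate_not_at_node] at h2
  · rw [h2, Lagrange.eval_nodal]
    unfold Phi
    have h3 : ∀ j : ℕ, w - -(j : ℂ) = w + j := fun j => by ring
    simp only [h3]
    have h4 : (∏ i ∈ Finset.range (m + 1), (w + (i : ℂ))) ≠ 0 :=
      Finset.prod_ne_zero_iff.2 hw
    rw [mul_comm (∏ i ∈ Finset.range (m + 1), (w + (i : ℂ))), mul_assoc, mul_div_cancel₀ _ h4,
      Finset.sum_mul]
    refine Finset.sum_congr rfl fun j hj => ?_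
    rw [← weight_eq (by have := Finset.mem_range.1 hj; omega)]
    ring
  · intro i hi h
    apply hw i hi
    rw [h]; ring

theorem sum_alt_eval {m : ℕ} (P : Polynomial ℂ) (hP : P.natDegree < m) :
    ∑ j ∈ Finset.range (m + 1), (-1) ^ j * (m.choose j : ℂ) * P.eval (-(j : ℂ)) = 0 := by
  have h1 := Polynomial.fwdDiff_iter_eq_zero_of_degree_lt
    (P := P.comp (-Polynomial.X)) (n := m) (by
      rw [Polynomial.natDegree_comp, Polynomial.natDegree_neg, Polynomial.natDegree_X, mul_one]
      exact hP)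
  have h2 := congrFun h1 0
  rw [fwdDiff_iter_eq_sum_shift] at h2
  simp only [Polynomial.eval_comp, Polynomial.eval_neg, Polynomial.eval_X, zero_add,
    Pi.zero_apply, nsmul_eq_mul, mul_one, zsmul_eq_mul] at h2
  have h3 : (-1 : ℂ) ^ m * ∑ j ∈ Finset.range (m + 1), (-1) ^ j * (m.choose j : ℂ) *
      P.eval (-(j : ℂ)) = 0 := by
    rw [← h2, Finset.mul_sum]
    refine Finset.sum_congr rfl fun j hj => ?_
    have hj' := Finset.mem_range.1 hj
    push_cast
    have h4 : (-1 : ℂ) ^ m * (-1) ^ j = (-1) ^ (m - j) := by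
      obtain ⟨n, rfl⟩ := Nat.exists_eq_add_of_le (Nat.lt_succ_iff.1 hj')
      rw [Nat.add_sub_cancel_left, pow_add]
      have : ((-1 : ℂ) ^ j) * (-1) ^ j = 1 := by rw [← mul_pow]; simp
      linear_combination (-1) ^ n * this
    rw [← h4]; ring
  exact (mul_eq_zero.1 h3).resolve_left (pow_ne_zero _ (by norm_num))

/-- the polynomial `P_s` -/
noncomputable def PP {k : ℕ} (s : Fin k → ℂ) : Polynomial ℂ :=
  ∏ J : Finset (Fin k), (Polynomial.X + Polynomial.C (-(J.card : ℂ) / 2 + ∑ j ∈ J, s j - 1))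

theorem eval_PP {k : ℕ} (s : Fin k → ℂ) (w : ℂ) : (PP s).eval w = Pol s w := by
  unfold PP Pol
  rw [Polynomial.eval_prod]
  refine Finset.prod_congr rfl fun J _ => ?_
  simp only [Polynomial.eval_add, Polynomial.eval_X, Polynomial.eval_C]
  ring

theorem natDegree_PP {k : ℕ} (s : Fin k → ℂ) : (PP s).natDegree ≤ 2 ^ k := by
  unfold PP
  refine (Polynomial.natDegree_prod_le _ _).trans ?_
  calc _ ≤ ∑ J : Finset (Fin k), 1 := by
        refine Finset.sum_le_sum fun J _ => ?_
        exact Polynomial.natDegree_X_add_C _ |>.le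
    _ = 2 ^ k := by simp

theorem wt_frac {k m : ℕ} (hm : 2 ^ k ≤ m) (s : Fin k → ℂ) {w : ℂ}
    (hw : ∀ j ∈ Finset.range (m + 1), w + j ≠ 0) :
    ∑ j ∈ Finset.range (m + 1), (-1) ^ j * (m.choose j : ℂ) * Pol s (-(j : ℂ)) / (w + j) =
      Pol s w * Phi m w := by
  have := partial_fractions (PP s) ((natDegree_PP s).trans hm) hw
  simpa only [eval_PP] using this

theorem wt_one {k m : ℕ} (hm : 2 ^ k < m) (s : Fin k → ℂ) : wt m s 1 = 0 := by
  have := sum_alt_eval (PP s) ((natDegree_PP s).trans_lt hm)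
  simp only [eval_PP] at this
  unfold wt
  simpa using this

theorem continuous_wt {k : ℕ} (m : ℕ) (s : Fin k → ℂ) : Continuous (wt m s) := by
  unfold wt
  fun_prop

end Pool.Agent.V5helper13.ML
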