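import Pool.Agent.V5helper13.ML.Abel
import Pool.Agent.V5helper13.ML.Poly

/-!
# The Mellin transform of the weighted moment
-/

set_option autoImplicit false

open MeasureTheory Set Complex Filter Topology

namespace Pool.Agent.V5helper13.ML

open Pool.Agent.Q48.MDS Pool.Agent.V5helper62.MD

open Classical in
/-- the coefficients of `A_M - ζ(s_1) ... ζ(s_k)` as a Dirichlet series in `w` -/
noncomputable def bet {k : ℕ} (M : ℕ) (s : Fin k → ℂ) (n : ℕ) : ℂ :=
  if FundDisc n ∧ 1 < n then (kron n M : ℂ) * ∏ j : Fin k, Lf n (s j) else 0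

theorem bet_zero {k : ℕ} (M : ℕ) (s : Fin k → ℂ) : bet M s 0 = 0 := by
  unfold bet
  rw [if_neg]
  rintro ⟨_, h⟩
  omega

theorem mom_eq {k : ℕ} (M m : ℕ) (X : ℝ) (s : Fin k → ℂ) :
    mom Lf M m X s = Rs (bet M s) (wt m s) X := by
  classical
  unfold mom Rs bet
  rw [Finset.sum_filter]
  have h1 : Finset.Icc 2 ⌊X⌋₊ ⊆ Finset.range (⌊X⌋₊ + 1) := by
    intro n hn
    rw [Finset.mem_Icc] at hn
    rw [Finset.mem_range]
    omega
  have h2 : ∑ n ∈ Finset.Icc 2 ⌊X⌋₊, (if FundDisc n then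
      (kron n M : ℂ) * wt m s ((n : ℝ) / X) * ∏ j : Fin k, Lf n (s j) else 0) =
      ∑ n ∈ Finset.Icc 2 ⌊X⌋₊, (if FundDisc n ∧ 1 < n then
        (kron n M : ℂ) * ∏ j : Fin k, Lf n (s j) else 0) * wt m s ((n : ℝ) / X) := by
    refine Finset.sum_congr rfl fun n hn => ?_
    rw [Finset.mem_Icc] at hn
    by_cases h : FundDisc n
    · rw [if_pos h, if_pos ⟨h, by omega⟩]; ring
    · rw [if_neg h, if_neg (fun h' => h h'.1), zero_mul]
  rw [h2]
  refine Finset.sum_subset h1 fun n _ hn2 => ?_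
  rw [if_neg, zero_mul]
  rintro ⟨_, h⟩
  apply hn2
  rw [Finset.mem_Icc]
  have := Finset.mem_range.1 ‹n ∈ Finset.range (⌊X⌋₊ + 1)›
  omega

theorem tm_pt {k : ℕ} (M : ℕ) (w : ℂ) (s : Fin k → ℂ) (d : {d : ℕ // FundDisc d}) :
    tm k M d (pt w s) = bet M s d * ((d : ℕ) : ℂ) ^ (-w) := by
  unfold tm bet
  simp only [pt_zero, pt_succ]
  by_cases h : (d : ℕ) = 1
  · rw [if_pos h, if_neg (by rintro ⟨_, h'⟩; omega), zero_mul]
  · rw [if_neg h, if_pos ⟨d.2, one_lt_of d.2 h⟩]
    ring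

theorem bet_support {k : ℕ} (M : ℕ) (s : Fin k → ℂ) {n : ℕ} (h : ¬ FundDisc n) : bet M s n = 0 := by
  unfold bet
  rw [if_neg fun h' => h h'.1]

theorem A1_pt {k : ℕ} (M : ℕ) (w : ℂ) (s : Fin k → ℂ) :
    A1 k M (pt w s) = ∑' n : ℕ, bet M s n * (n : ℂ) ^ (-w) := by
  unfold A1
  simp_rw [tm_pt]
  have h := tsum_subtype {d : ℕ | FundDisc d} (fun n : ℕ => bet M s n * (n : ℂ) ^ (-w))
  refine Eq.trans h ?_
  refine tsum_congr fun n => ?_
  by_cases hn : FundDisc n
  · rw [indicator_of_mem (show n ∈ {d : ℕ | FundDisc d} from hn)]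
  · rw [indicator_of_notMem (show n ∉ {d : ℕ | FundDisc d} from hn), bet_support M s hn, zero_mul]

theorem V_pos {k : ℕ} {x : Fin (k + 1) → ℝ} (hx : x ∈ V k) : (k : ℝ) + 1 < x 0 := by
  have := hx ∅
  unfold rsig at this
  simpa using this

theorem summable_bet {k : ℕ} (M : ℕ) {w : ℂ} {s : Fin k → ℂ} (h : pt w s ∈ tube (V k)) :
    Summable (fun n : ℕ => ‖bet M s n‖ * (n : ℝ) ^ (-w.re)) := by
  have hw0 : 0 < w.re := by
    have := V_pos h
    have h2 : (k : ℝ) + 1 < w.re := this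
    have : (0 : ℝ) ≤ k := Nat.cast_nonneg k
    linarith
  have h1 := ((dom_V k M).summable h).norm
  simp_rw [tm_pt] at h1
  have h2 : Summable (fun n : {d : ℕ // FundDisc d} => ‖bet M s n‖ * (((n : ℕ) : ℝ)) ^ (-w.re)) := by
    refine h1.congr fun n => ?_
    have hn : 0 < (n : ℕ) := fund_pos n.2
    rw [norm_mul, Complex.norm_natCast_cpow_of_pos hn, Complex.neg_re]
  have h3 := (summable_subtype_iff_indicator (s := {d : ℕ | FundDisc d})
    (f := fun n : ℕ => ‖bet M s n‖ * (n : ℝ) ^ (-w.re))).1 h2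
  refine h3.congr fun n => ?_
  by_cases hn : FundDisc n
  · rw [indicator_of_mem (show n ∈ {d : ℕ | FundDisc d} from hn)]
  · rw [indicator_of_notMem (show n ∉ {d : ℕ | FundDisc d} from hn), bet_support M s hn]
    simp

/-- **The Mellin transform of the weighted moment.** -/
theorem mellin_mom {k : ℕ} (M : ℕ) {m : ℕ} (hm : 2 ^ k ≤ m) {w : ℂ} {s : Fin k → ℂ}
    (h : pt w s ∈ tube (V k)) :
    MellinConvergent (fun X => mom Lf M m X s) (-w) ∧
      mellin (fun X => mom Lf M m X s) (-w) = F1 k M (pt w s) * Phi m w := by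
  have hw0 : 0 < w.re := by
    have := V_pos h
    have h2 : (k : ℝ) + 1 < w.re := this
    have : (0 : ℝ) ≤ k := Nat.cast_nonneg k
    linarith
  have h1 := mellin_Rs (bet_zero M s) (m := m)
    (c := fun j => (-1) ^ j * (m.choose j : ℂ) * Pol s (-(j : ℂ))) (g := wt m s)
    (fun x => rfl) hw0 (summable_bet M h)
  have h2 : (fun X => mom Lf M m X s) = Rs (bet M s) (wt m s) := funext fun X => mom_eq M m X s
  rw [h2]
  refine ⟨h1.1, h1.2.trans ?_⟩
  rw [wt_frac hm s, ← A1_pt]
  · unfold F1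
    rw [prod_sigma_pt]
    ring
  · intro j _ h0
    have h3 := congrArg Complex.re h0
    simp at h3
    have : (0 : ℝ) ≤ j := Nat.cast_nonneg j
    linarith

/-! ### measurability -/

theorem continuous_Pol_ln {k : ℕ} (p : Fin (k + 1) → ℝ) (w : ℂ) :
    Continuous (fun t : Fin k → ℝ => Pol (ln p t) w) := by
  unfold Pol ln
  fun_prop

theorem measurable_mom {k : ℕ} {L : ℕ → ℂ → ℂ}
    (hL : ∀ d, FundDisc d → 1 < d → Continuous (L d)) (M m : ℕ) (p : Fin (k + 1) → ℝ) :
    Measurable (fun q : ℝ × (Fin k → ℝ) => mom L M m q.1 (ln p q.2)) := by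
  classical
  have h1 : Measurable (fun q : ℕ × (ℝ × (Fin k → ℝ)) =>
      ∑ d ∈ (Finset.Icc 2 q.1).filter FundDisc,
        (kron d M : ℂ) * wt m (ln p q.2.2) ((d : ℝ) / q.2.1) * ∏ j : Fin k, L d (ln p q.2.2 j)) := by
    refine measurable_from_prod_countable_right fun n => ?_
    show Measurable fun x : ℝ × (Fin k → ℝ) => ∑ d ∈ (Finset.Icc 2 n).filter FundDisc,
        (kron d M : ℂ) * wt m (ln p x.2) ((d : ℝ) / x.1) * ∏ j : Fin k, L d (ln p x.2 j)
    refine Finset.measurable_sum _ fun d hd => ?_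
    rw [Finset.mem_filter, Finset.mem_Icc] at hd
    refine Measurable.mul (Measurable.mul measurable_const ?_) ?_
    · unfold wt
      refine Finset.measurable_sum _ fun j _ => ?_
      refine Measurable.mul (measurable_const.mul ?_) ?_
      · exact (continuous_Pol_ln p _).measurable.comp measurable_snd
      · have : Measurable (fun x : ℝ × (Fin k → ℝ) => (d : ℝ) / x.1) :=
          measurable_const.div measurable_fst
        exact (Complex.measurable_ofReal.comp this).pow_const j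
    · have hc : Continuous (fun t : Fin k → ℝ => ∏ j : Fin k, L d (ln p t j)) := by
        refine continuous_finsetProd _ fun j _ => ?_
        refine (hL d hd.2 (by omega)).comp ?_
        unfold ln
        fun_prop
      exact hc.measurable.comp measurable_snd
  have h2 : Measurable (fun q : ℝ × (Fin k → ℝ) => (⌊q.1⌋₊, q)) :=
    (Nat.measurable_floor.comp measurable_fst).prodMk measurable_id
  have h3 := h1.comp h2
  simp only [Function.comp_def] at h3
  unfold mom
  exact h3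

end Pool.Agent.V5helper13.ML
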