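import Pool.Agent.V5helper13.ML.Back
import Pool.Agent.V5helper13.ML.Fwd

/-!
# Pointwise power savings give mean power savings; uniqueness of the L-functions
-/

set_option autoImplicit false

open MeasureTheory Set Complex Filter Topology Metric

namespace Pool.Agent.V5helper13.ML

open Pool.Agent.Q48.MDS Pool.Agent.V5helper62.MD

theorem mean_of_power {k M : ℕ} {p : Fin (k + 1) → ℝ} {m N : ℕ} {δ C : ℝ} (hδ : 0 < δ)
    (h : ∀ X : ℝ, 1 ≤ X → ∀ t : Fin k → ℝ,
      ‖mom Lf M m X (ln p t)‖ ≤ C * X ^ (p 0 - δ) * (1 + ‖t‖) ^ N) :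
    IntegrableOn (fun q : ℝ × (Fin k → ℝ) => mom Lf M m q.1 (ln p q.2) *
      ((q.1 ^ (δ / 2 - p 0 - 1) / (1 + ‖q.2‖) ^ (N + (k + 1)) : ℝ) : ℂ)) (Ioi 1 ×ˢ univ) := by
  have hLc : ∀ d, FundDisc d → 1 < d → Continuous (Lf d) := fun d h1 h2 => (Lf_diff h1 h2).continuous
  have hmeas := measurable_mom hLc M m p
  have h1 : (volume.restrict (Ioi (1 : ℝ))).prod (volume : Measure (Fin k → ℝ)) =
      (volume : Measure (ℝ × (Fin k → ℝ))).restrict (Ioi 1 ×ˢ univ) := by
    have := Measure.prod_restrict (μ := (volume : Measure ℝ)) (ν := (volume : Measure (Fin k → ℝ)))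
      (Ioi 1) univ
    rw [Measure.restrict_univ] at this
    exact this
  have hi1 : Integrable (fun X : ℝ => X ^ (-(δ / 2) - 1)) (volume.restrict (Ioi (1 : ℝ))) :=
    integrableOn_Ioi_rpow_of_lt (by linarith) one_pos
  have hi2 : Integrable (fun t : Fin k → ℝ => (1 + ‖t‖) ^ (-((k : ℝ) + 1))) := by
    refine integrable_one_add_norm ?_
    simp
  have hprod := hi1.mul_prod hi2
  rw [h1] at hprod
  have hprod2 := hprod.const_mul |C|
  refine Integrable.mono' hprod2 ?_ ?_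
  · refine (Measurable.mul hmeas ?_).aestronglyMeasurable
    refine Complex.measurable_ofReal.comp ?_
    refine Measurable.div ?_ ?_
    · exact measurable_fst.pow_const _
    · exact ((measurable_const.add measurable_snd.norm).pow_const _)
  · filter_upwards [ae_restrict_mem (measurableSet_Ioi.prod MeasurableSet.univ)] with q hq
    have hX : 1 < q.1 := hq.1
    have hX0 : 0 < q.1 := by linarith
    have h2 := h q.1 hX.le q.2
    have hpos : 0 < (1 + ‖q.2‖) := by positivity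
    rw [norm_mul, Complex.norm_real, Real.norm_of_nonneg (by positivity)]
    have e1 : (1 + ‖q.2‖) ^ (-((k : ℝ) + 1)) = ((1 + ‖q.2‖) ^ (k + 1))⁻¹ := by
      rw [Real.rpow_neg hpos.le]
      congr 1
      exact_mod_cast Real.rpow_natCast (1 + ‖q.2‖) (k + 1)
    have e2 : q.1 ^ (p 0 - δ) * q.1 ^ (δ / 2 - p 0 - 1) = q.1 ^ (-(δ / 2) - 1) := by
      rw [← Real.rpow_add hX0]
      congr 1
      ring
    have h3 : ‖mom Lf M m q.1 (ln p q.2)‖ ≤ |C| * q.1 ^ (p 0 - δ) * (1 + ‖q.2‖) ^ N := by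
      refine h2.trans ?_
      gcongr
      exact le_abs_self C
    calc ‖mom Lf M m q.1 (ln p q.2)‖ * (q.1 ^ (δ / 2 - p 0 - 1) / (1 + ‖q.2‖) ^ (N + (k + 1)))
        ≤ (|C| * q.1 ^ (p 0 - δ) * (1 + ‖q.2‖) ^ N) *
          (q.1 ^ (δ / 2 - p 0 - 1) / (1 + ‖q.2‖) ^ (N + (k + 1))) := by gcongr
      _ = |C| * ((q.1 ^ (p 0 - δ) * q.1 ^ (δ / 2 - p 0 - 1)) * ((1 + ‖q.2‖) ^ (k + 1))⁻¹) := by
          rw [pow_add]
          field_simp
      _ = _ := by rw [e1, e2]

/-- uniqueness of the continuation of the L-functions -/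
theorem eq_Lf {L : ℕ → ℂ → ℂ} {d : ℕ} (hd : FundDisc d) (h1 : 1 < d)
    (hL : Differentiable ℂ (L d)) (hL' : ∀ s : ℂ, 1 < s.re → L d s = Lchi d s) : L d = Lf d := by
  have ha : AnalyticOnNhd ℂ (L d) univ := fun z _ => hL.analyticAt z
  have hb : AnalyticOnNhd ℂ (Lf d) univ := fun z _ => (Lf_diff hd h1).analyticAt z
  have hev : L d =ᶠ[𝓝 (2 : ℂ)] Lf d := by
    have : {s : ℂ | 1 < s.re} ∈ 𝓝 (2 : ℂ) :=
      (isOpen_lt continuous_const Complex.continuous_re).mem_nhds (by simp)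
    filter_upwards [this] with s hs
    rw [hL' s hs, Lf_eq hd h1 hs]
  have := ha.eqOn_of_preconnected_of_eventuallyEq hb isPreconnected_univ (mem_univ 2) hev
  funext s
  exact this (mem_univ s)

theorem mom_congr {k : ℕ} {L : ℕ → ℂ → ℂ} (hL : ∀ d, FundDisc d → 1 < d → L d = Lf d) (M m : ℕ)
    (X : ℝ) (s : Fin k → ℂ) : mom L M m X s = mom Lf M m X s := by
  classical
  unfold mom
  refine Finset.sum_congr rfl fun d hd => ?_
  rw [Finset.mem_filter, Finset.mem_Icc] at hd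
  rw [hL d hd.2 (by omega)]

end Pool.Agent.V5helper13.ML
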