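import Pool.Agent.V5helper13.ML.Flat

/-!
# From a flat tube to a neighbourhood
-/

set_option autoImplicit false

open MeasureTheory Set Complex Filter Topology Metric

namespace Pool.Agent.V5helper13.ML

open Pool.Agent.Q48.MDS Pool.Agent.V5helper62.MD

/-- a point of `Pset` and a point with the bound without exponential decay -/
theorem mem_Pset_of_flat {ι : Type*} [Fintype ι] [DecidableEq ι] {F' : (ι → ℂ) → ℂ} {u : ι → ℂ}
    {x₁ x₂ : ι → ℝ} (h₁ : x₁ ∈ Pset F' u) {C : ℝ} {N : ℕ} (hC : 0 ≤ C)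
    (h₂ : ∀ η ξ : EuclideanSpace ℝ ι, ‖hat F' η ξ u‖ * Real.exp (2 * Real.pi * ∑ j, x₂ j * ξ j) ≤
      C * (1 + ‖η‖) ^ N) {a b : ℝ} (ha : 0 < a) (hb : 0 ≤ b) (hab : a + b = 1) :
    a • x₁ + b • x₂ ∈ Pset F' u := by
  obtain ⟨r, C', N', hr, hC0', hC'⟩ := h₁
  refine ⟨a * r, C' + C, max N' N, by positivity, by positivity, fun η ξ => ?_⟩
  have h1 : Real.exp (2 * Real.pi * ∑ j, (a • x₁ + b • x₂) j * ξ j) * Real.exp (a * r * ‖ξ‖) ≤
      a * (Real.exp (2 * Real.pi * ∑ j, x₁ j * ξ j) * Real.exp (r * ‖ξ‖)) +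
        b * Real.exp (2 * Real.pi * ∑ j, x₂ j * ξ j) := by
    have h2 := convexOn_exp.2 (mem_univ (2 * Real.pi * ∑ j, x₁ j * ξ j + r * ‖ξ‖))
      (mem_univ (2 * Real.pi * ∑ j, x₂ j * ξ j)) ha.le hb hab
    rw [← Real.exp_add, ← Real.exp_add]
    have h3 : 2 * Real.pi * ∑ j, (a • x₁ + b • x₂) j * ξ j + a * r * ‖ξ‖ =
        a • (2 * Real.pi * ∑ j, x₁ j * ξ j + r * ‖ξ‖) + b • (2 * Real.pi * ∑ j, x₂ j * ξ j) := by
      have h4 : ∑ j, (a • x₁ + b • x₂) j * ξ j = a * ∑ j, x₁ j * ξ j + b * ∑ j, x₂ j * ξ j := by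
        rw [Finset.mul_sum, Finset.mul_sum, ← Finset.sum_add_distrib]
        refine Finset.sum_congr rfl fun j _ => ?_
        simp only [Pi.add_apply, Pi.smul_apply, smul_eq_mul]
        ring
      rw [h4]
      simp only [smul_eq_mul]
      ring
    rw [h3]
    simpa only [smul_eq_mul] using h2
  have hη : 1 ≤ 1 + ‖η‖ := by linarith [norm_nonneg η]
  have h4 : (1 + ‖η‖) ^ N' ≤ (1 + ‖η‖) ^ max N' N := pow_le_pow_right₀ hη (le_max_left _ _)
  have h5 : (1 + ‖η‖) ^ N ≤ (1 + ‖η‖) ^ max N' N := pow_le_pow_right₀ hη (le_max_right _ _)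
  have e1 : ‖hat F' η ξ u‖ * (Real.exp (2 * Real.pi * ∑ j, x₁ j * ξ j) * Real.exp (r * ‖ξ‖)) ≤
      C' * (1 + ‖η‖) ^ max N' N := by
    have h6 : Real.exp (-r * ‖ξ‖) * Real.exp (r * ‖ξ‖) = 1 := by
      rw [← Real.exp_add]; simp
    calc _ = (‖hat F' η ξ u‖ * Real.exp (2 * Real.pi * ∑ j, x₁ j * ξ j)) * Real.exp (r * ‖ξ‖) := by
          ring
      _ ≤ (C' * (1 + ‖η‖) ^ N' * Real.exp (-r * ‖ξ‖)) * Real.exp (r * ‖ξ‖) :=
          mul_le_mul_of_nonneg_right (hC' η ξ) (Real.exp_pos _).le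
      _ = C' * (1 + ‖η‖) ^ N' * (Real.exp (-r * ‖ξ‖) * Real.exp (r * ‖ξ‖)) := by ring
      _ = C' * (1 + ‖η‖) ^ N' := by rw [h6, mul_one]
      _ ≤ _ := by gcongr
  have e2 : ‖hat F' η ξ u‖ * Real.exp (2 * Real.pi * ∑ j, x₂ j * ξ j) ≤
      C * (1 + ‖η‖) ^ max N' N := (h₂ η ξ).trans (by gcongr)
  have e3 : ‖hat F' η ξ u‖ * Real.exp (2 * Real.pi * ∑ j, (a • x₁ + b • x₂) j * ξ j) *
      Real.exp (a * r * ‖ξ‖) ≤ (C' + C) * (1 + ‖η‖) ^ max N' N := by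
    have ha1 : a ≤ 1 := by linarith
    have hb1 : b ≤ 1 := by linarith
    calc _ = ‖hat F' η ξ u‖ * (Real.exp (2 * Real.pi * ∑ j, (a • x₁ + b • x₂) j * ξ j) *
          Real.exp (a * r * ‖ξ‖)) := by ring
      _ ≤ ‖hat F' η ξ u‖ * (a * (Real.exp (2 * Real.pi * ∑ j, x₁ j * ξ j) * Real.exp (r * ‖ξ‖)) +
        b * Real.exp (2 * Real.pi * ∑ j, x₂ j * ξ j)) := by gcongr
      _ = a * (‖hat F' η ξ u‖ * (Real.exp (2 * Real.pi * ∑ j, x₁ j * ξ j) * Real.exp (r * ‖ξ‖))) +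
        b * (‖hat F' η ξ u‖ * Real.exp (2 * Real.pi * ∑ j, x₂ j * ξ j)) := by ring
      _ ≤ 1 * (C' * (1 + ‖η‖) ^ max N' N) + 1 * (C * (1 + ‖η‖) ^ max N' N) := by gcongr
      _ = _ := by ring
  have h7 : Real.exp (a * r * ‖ξ‖) * Real.exp (-(a * r) * ‖ξ‖) = 1 := by
    rw [← Real.exp_add]
    have : a * r * ‖ξ‖ + -(a * r) * ‖ξ‖ = 0 := by ring
    rw [this, Real.exp_zero]
  calc ‖hat F' η ξ u‖ * Real.exp (2 * Real.pi * ∑ j, (a • x₁ + b • x₂) j * ξ j)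
      = (‖hat F' η ξ u‖ * Real.exp (2 * Real.pi * ∑ j, (a • x₁ + b • x₂) j * ξ j)) *
        (Real.exp (a * r * ‖ξ‖) * Real.exp (-(a * r) * ‖ξ‖)) := by rw [h7, mul_one]
    _ = (‖hat F' η ξ u‖ * Real.exp (2 * Real.pi * ∑ j, (a • x₁ + b • x₂) j * ξ j) *
        Real.exp (a * r * ‖ξ‖)) * Real.exp (-(a * r) * ‖ξ‖) := by ring
    _ ≤ ((C' + C) * (1 + ‖η‖) ^ max N' N) * Real.exp (-(a * r) * ‖ξ‖) :=
        mul_le_mul_of_nonneg_right e3 (Real.exp_pos _).le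

/-- A tempered function extends to the tube over `Pset`. -/
theorem tempered_Pset {ι : Type*} [Fintype ι] [DecidableEq ι] {Ω : Set (ι → ℝ)} (hΩ : IsOpen Ω)
    (hp : IsConnected Ω) {F' : (ι → ℂ) → ℂ} (hF : Tempered Ω F') {u : ι → ℂ} (hu : u ∈ tube Ω) :
    ∃ G : (ι → ℂ) → ℂ, Tempered (Pset F' u) G ∧ EqOn G F' (tube Ω) := by
  have hpre := hp.isPreconnected
  set P := Pset F' u with hPdef
  have hsub : Ω ⊆ P := subset_Pset hΩ hpre hF hu
  set G : EuclideanSpace ℝ ι → (ι → ℂ) → ℂ := fun η z => lap F' η u z * cexp (-gau η z) with hG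
  have hGd : ∀ η, DifferentiableOn ℂ (G η) (tube P) := fun η =>
    (differentiableOn_lap hF η hu).mul (differentiable_gau η).neg.cexp.differentiableOn
  have hGF : ∀ η, EqOn (G η) F' (tube Ω) := by
    intro η z hz
    simp only [hG]
    rw [lap_eq hΩ hpre hF η hu hz, mul_assoc, ← Complex.exp_add]
    simp
  have hGG : ∀ η, EqOn (G 0) (G η) (tube P) := fun η =>
    eqOn_tube hΩ hp.nonempty (isOpen_Pset F' u) (convex_Pset F' u) hsub (hGd 0) (hGd η)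
      (fun z hz => (hGF 0 hz).trans (hGF η hz).symm)
  have hT : Tempered P (G 0) := by
    refine ⟨hGd 0, fun K hK hc => ?_⟩
    -- a local bound
    have hloc : ∀ x ∈ K, ∃ (δ C : ℝ) (N : ℕ), 0 < δ ∧ 0 ≤ C ∧ ∀ z : ι → ℂ,
        (fun i => (z i).re) ∈ ball x δ → ‖G 0 z‖ ≤ C * (1 + ‖fun i => (z i).im‖) ^ N := by
      intro x hx
      obtain ⟨δ, r, C, N, hδ, hr, hC0, hC⟩ := Pset_near (hK hx)
      set J := ∫ ξ : EuclideanSpace ℝ ι, Real.exp (-r * ‖ξ‖) with hJ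
      have hJ0 : 0 ≤ J := integral_nonneg fun y => by positivity
      set D : ℝ := (Real.sqrt (Fintype.card ι) + 1) with hD
      have hD1 : 1 ≤ D := by rw [hD]; linarith [Real.sqrt_nonneg (Fintype.card ι : ℝ)]
      refine ⟨δ, C * D ^ N * J, N, hδ, by positivity, fun z hz => ?_⟩
      have hzP : z ∈ tube P := ⟨r, C, N, hr, hC0, hC _ hz⟩
      rw [hGG (imV z) hzP]
      simp only [hG]
      rw [norm_mul]
      have h1 : ‖cexp (-gau (imV z) z)‖ ≤ 1 := by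
        rw [Complex.exp_neg, norm_inv, norm_exp_gau]
        simp only [sub_self, norm_zero]
        apply inv_le_one_of_one_le₀
        have : (0 : ℝ) ≤ ∑ j, (z j).re ^ 2 := Finset.sum_nonneg fun j _ => sq_nonneg _
        simpa using this
      have h2 : ‖lap F' (imV z) u z‖ ≤ C * (1 + ‖imV z‖) ^ N * J := by
        unfold lap
        calc _ ≤ ∫ ξ : EuclideanSpace ℝ ι,
              ‖hat F' (imV z) ξ u * cexp (((2 * Real.pi : ℝ) : ℂ) * pair z ξ)‖ :=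
              norm_integral_le_integral_norm _
          _ ≤ ∫ ξ : EuclideanSpace ℝ ι, C * (1 + ‖imV z‖) ^ N * Real.exp (-r * ‖ξ‖) := by
              refine integral_mono_of_nonneg (Eventually.of_forall fun _ => norm_nonneg _)
                ((integrable_exp_norm hr).const_mul _) (Eventually.of_forall fun ξ => ?_)
              show ‖hat F' (imV z) ξ u * cexp (((2 * Real.pi : ℝ) : ℂ) * pair z ξ)‖ ≤ _
              rw [norm_mul, norm_exp_pair]
              exact hC _ hz (imV z) ξ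
          _ = _ := integral_const_mul _ _
      have h3 : ‖imV z‖ ≤ D * ‖fun i => (z i).im‖ := by
        have h4 : ‖imV z‖ ^ 2 ≤ (Fintype.card ι : ℝ) * ‖fun i => (z i).im‖ ^ 2 := by
          rw [EuclideanSpace.norm_sq_eq]
          calc ∑ i, ‖imV z i‖ ^ 2 ≤ ∑ _i : ι, ‖fun i => (z i).im‖ ^ 2 := by
                refine Finset.sum_le_sum fun i _ => ?_
                have : ‖imV z i‖ ≤ ‖fun i => (z i).im‖ := norm_le_pi_norm (fun i => (z i).im) i
                gcongr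
            _ = _ := by simp
        have h5 : ‖imV z‖ ≤ Real.sqrt (Fintype.card ι) * ‖fun i => (z i).im‖ := by
          rw [← pow_le_pow_iff_left₀ (norm_nonneg _) (by positivity) two_ne_zero]
          rw [mul_pow, Real.sq_sqrt (by positivity)]
          exact h4
        refine h5.trans ?_
        gcongr
        rw [hD]; linarith
      have h6 : 1 + ‖imV z‖ ≤ D * (1 + ‖fun i => (z i).im‖) := by
        rw [mul_add, mul_one]; linarith
      calc ‖lap F' (imV z) u z‖ * ‖cexp (-gau (imV z) z)‖ ≤ (C * (1 + ‖imV z‖) ^ N * J) * 1 := by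
            gcongr
        _ ≤ (C * (D * (1 + ‖fun i => (z i).im‖)) ^ N * J) * 1 := by gcongr
        _ = _ := by rw [mul_pow]; ring
    choose! δ C N hδ hC0 hC using hloc
    obtain ⟨t, ht, hcov⟩ := hc.elim_nhds_subcover (fun x => ball x (δ x))
      (fun x hx => ball_mem_nhds x (hδ x hx))
    refine ⟨∑ x ∈ t, C x, t.sup N, fun z hz => ?_⟩
    obtain ⟨x, hxt, hzx⟩ := mem_iUnion₂.1 (hcov hz)
    have h1 := hC x (ht x hxt) z hzx
    have h2 : 1 ≤ 1 + ‖fun i => (z i).im‖ := by linarith [norm_nonneg (fun i => (z i).im)]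
    calc ‖G 0 z‖ ≤ C x * (1 + ‖fun i => (z i).im‖) ^ N x := h1
      _ ≤ (∑ x ∈ t, C x) * (1 + ‖fun i => (z i).im‖) ^ t.sup N := by
          have e1 : C x ≤ ∑ x ∈ t, C x := Finset.single_le_sum (fun y hy => hC0 y (ht y hy)) hxt
          have e2 : (1 + ‖fun i => (z i).im‖) ^ N x ≤ (1 + ‖fun i => (z i).im‖) ^ t.sup N :=
            pow_le_pow_right₀ h2 (Finset.le_sup (f := N) hxt)
          have e3 : 0 ≤ C x := hC0 x (ht x hxt)
          gcongr
          exact e3.trans e1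
  exact ⟨G 0, hT, hGF 0⟩

/-- continuation to a point of `Pset` -/
theorem continuesTo_of_mem_Pset {k M : ℕ} {x₀ p : Fin (k + 1) → ℝ} (hx₀ : x₀ ∈ V k)
    (hp : p ∈ Pset (F1 k M) (rl x₀)) : ContinuesTo k M p := by
  have hTF : Tempered (V k) (F1 k M) := tempered_F1 (isOpen_V k) (dom_V k M)
  obtain ⟨y, hy⟩ := orth_inter_V_nonempty k
  have hconn : IsConnected (V k) := ⟨⟨y, hy.2⟩, (convex_V k).isPreconnected⟩
  obtain ⟨G, hG, hGF⟩ := tempered_Pset (isOpen_V k) hconn hTF (rl_mem hx₀)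
  obtain ⟨Ω, G', _, hG'⟩ := cont_of (orth_mem (M := M) hy.1)
  have hVP : V k ⊆ Pset (F1 k M) (rl x₀) :=
    subset_Pset (isOpen_V k) hconn.isPreconnected hTF (rl_mem hx₀)
  exact hG'.glue (isOpen_Pset _ _) (convex_Pset _ _) hG ⟨y, hVP hy.2, hy.2⟩
    (fun z hz => hGF hz.2) hp

end Pool.Agent.V5helper13.ML
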